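import Pool.Agent.R29.OP.Stm

/-!
# MP_7b675e_co, piece A1: the face lattice of a convex hull is the labelled face poset
-/

set_option autoImplicit false

open Set Metric

namespace Pool.Agent.R29.OP

namespace A1

variable {k : ℕ} {I : Type} (p : I → E k)

theorem conv_le (c : E k →L[ℝ] ℝ) (h : ℝ) (hc : ∀ i, c (p i) ≤ h) (x : E k)
    (hx : x ∈ convexHull ℝ (range p)) : c x ≤ h := by
  have h1 : convexHull ℝ (range p) ⊆ {x | c x ≤ h} := by
    apply convexHull_min
    · rintro _ ⟨i, rfl⟩
      exact hc i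
    · exact convex_halfSpace_le c.toLinearMap.isLinear h
  exact h1 hx

theorem conv_eq (S : Set I) (c : E k →L[ℝ] ℝ) (h : ℝ) (hc : ∀ i ∈ S, c (p i) = h) (x : E k)
    (hx : x ∈ convexHull ℝ (p '' S)) : c x = h := by
  have h1 : convexHull ℝ (p '' S) ⊆ {x | c x = h} := by
    apply convexHull_min
    · rintro _ ⟨i, hi, rfl⟩
      exact hc i hi
    · exact convex_hyperplane c.toLinearMap.isLinear h
  exact h1 hx

theorem conv_alt (S : Set I) (c : E k →L[ℝ] ℝ) (h : ℝ) (hc : ∀ i ∈ S, c (p i) = h)
    (hc' : ∀ i, i ∉ S → c (p i) < h) (x : E k)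
    (hx : x ∈ convexHull ℝ (range p)) : c x < h ∨ x ∈ convexHull ℝ (p '' S) := by
  have h1 : convexHull ℝ (range p) ⊆ {x | c x < h ∨ x ∈ convexHull ℝ (p '' S)} := by
    apply convexHull_min
    · rintro _ ⟨i, rfl⟩
      by_cases hi : i ∈ S
      · exact Or.inr (subset_convexHull ℝ _ ⟨i, hi, rfl⟩)
      · exact Or.inl (hc' i hi)
    · intro x hx y hy a b ha hb hab
      have hx' : c x ≤ h := by
        rcases hx with hx | hx
        · exact hx.le
        · exact (conv_eq p S c h hc x hx).le
      have hy' : c y ≤ h := by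
        rcases hy with hy | hy
        · exact hy.le
        · exact (conv_eq p S c h hc y hy).le
      rcases eq_or_lt_of_le ha with ha0 | ha0
      · have hb1 : b = 1 := by linarith
        rw [← ha0, hb1, zero_smul, one_smul, zero_add]
        exact hy
      rcases eq_or_lt_of_le hb with hb0 | hb0
      · have ha1 : a = 1 := by linarith
        rw [← hb0, ha1, zero_smul, one_smul, add_zero]
        exact hx
      have hh : a * h + b * h = h := by rw [← add_mul, hab, one_mul]
      by_cases hxx : c x < h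
      · left
        rw [map_add, map_smul, map_smul, smul_eq_mul, smul_eq_mul]
        have e1 := mul_lt_mul_of_pos_left hxx ha0
        have e2 := mul_le_mul_of_nonneg_left hy' hb
        linarith
      by_cases hyy : c y < h
      · left
        rw [map_add, map_smul, map_smul, smul_eq_mul, smul_eq_mul]
        have e1 := mul_lt_mul_of_pos_left hyy hb0
        have e2 := mul_le_mul_of_nonneg_left hx' ha
        linarith
      · right
        exact (convex_convexHull ℝ (p '' S)) (hx.resolve_left hxx) (hy.resolve_left hyy) ha hb hab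
  exact h1 hx

theorem exposed_set (S : Set I) (hS : S ∈ FaceSet p) :
    IsExposed ℝ (convexHull ℝ (range p)) (convexHull ℝ (p '' S)) := by
  obtain ⟨c, h, hc, hc'⟩ := hS
  intro hne
  refine ⟨c, ?_⟩
  have hle : ∀ i, c (p i) ≤ h := by
    intro i
    by_cases hi : i ∈ S
    · exact (hc i hi).le
    · exact (hc' i hi).le
  obtain ⟨z, hz⟩ := hne
  have hzA : z ∈ convexHull ℝ (range p) := convexHull_mono (image_subset_range p S) hz
  ext x
  constructor
  · intro hx
    refine ⟨convexHull_mono (image_subset_range p S) hx, fun y hy => ?_⟩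
    rw [conv_eq p S c h hc x hx]
    exact conv_le p c h hle y hy
  · rintro ⟨hx, hmax⟩
    have h1 := hmax z hzA
    rw [conv_eq p S c h hc z hz] at h1
    exact (conv_alt p S c h hc hc' x hx).resolve_left (not_lt.2 h1)

theorem index_face (F : Set (E k)) (hF : IsExposed ℝ (convexHull ℝ (range p)) F) :
    {i | p i ∈ F} ∈ FaceSet p ∧ convexHull ℝ (p '' {i | p i ∈ F}) = F := by
  rcases F.eq_empty_or_nonempty with rfl | hne
  · have : {i | p i ∈ (∅ : Set (E k))} = ∅ := by
      ext i
      simp
    rw [this, image_empty, convexHull_empty]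
    refine ⟨⟨0, 1, fun i hi => absurd hi (notMem_empty i), fun i _ => ?_⟩, rfl⟩
    simp
  · obtain ⟨l, hl⟩ := hF hne
    obtain ⟨z, hz⟩ := hne
    have hz' := hz
    rw [hl] at hz'
    have hmem : ∀ x, x ∈ F ↔ x ∈ convexHull ℝ (range p) ∧ l x = l z := by
      intro x
      constructor
      · intro hx
        have hx' := hx
        rw [hl] at hx'
        exact ⟨hx'.1, le_antisymm (hz'.2 x hx'.1) (hx'.2 z hz'.1)⟩
      · rintro ⟨hx1, hx2⟩
        rw [hl]
        refine ⟨hx1, fun y hy => ?_⟩
        rw [hx2]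
        exact hz'.2 y hy
    have h1 : ∀ i ∈ {i | p i ∈ F}, l (p i) = l z := fun i hi => ((hmem _).1 hi).2
    have h2 : ∀ i, i ∉ {i | p i ∈ F} → l (p i) < l z := by
      intro i hi
      have hA : p i ∈ convexHull ℝ (range p) := subset_convexHull ℝ _ ⟨i, rfl⟩
      refine lt_of_le_of_ne (hz'.2 _ hA) fun h => hi ((hmem _).2 ⟨hA, h⟩)
    refine ⟨⟨l, l z, h1, h2⟩, ?_⟩
    ext x
    constructor
    · intro hx
      rw [hmem]
      exact ⟨convexHull_mono (image_subset_range p _) hx, conv_eq p _ l (l z) h1 x hx⟩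
    · intro hx
      have hx' := (hmem x).1 hx
      exact (conv_alt p _ l (l z) h1 h2 x hx'.1).resolve_left (not_lt.2 hx'.2.ge)

theorem index_conv (S : Set I) (hS : S ∈ FaceSet p) : {i | p i ∈ convexHull ℝ (p '' S)} = S := by
  obtain ⟨c, h, hc, hc'⟩ := hS
  ext i
  constructor
  · intro hi
    by_contra hiS
    exact absurd (conv_eq p S c h hc _ hi) (hc' i hiS).ne
  · intro hi
    exact subset_convexHull ℝ _ ⟨i, hi, rfl⟩

/-- The isomorphism. -/
noncomputable def iso : FaceLattice (convexHull ℝ (range p)) ≃o {S : Set I // S ∈ FaceSet p} where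
  toFun F := ⟨{i | p i ∈ F.1}, (index_face p F.1 F.2).1⟩
  invFun S := ⟨convexHull ℝ (p '' S.1), exposed_set p S.1 S.2⟩
  left_inv F := Subtype.ext (index_face p F.1 F.2).2
  right_inv S := Subtype.ext (index_conv p S.1 S.2)
  map_rel_iff' := by
    intro F G
    constructor
    · intro h
      have h' : {i | p i ∈ F.1} ⊆ {i | p i ∈ G.1} := h
      show F.1 ⊆ G.1
      rw [← (index_face p F.1 F.2).2, ← (index_face p G.1 G.2).2]
      exact convexHull_mono (image_mono h')
    · intro h i hi
      exact h hi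

end A1

theorem faceIso : FaceIsoStm := fun _ _ _ _ p => ⟨A1.iso p⟩

end Pool.Agent.R29.OP
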