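import Pool.Agent.R29.OP.Stm

/-! Pieces A2, A3, A4 for MP_7b675e_co: facets of a configuration. -/

set_option autoImplicit false

open Set Metric Filter Topology

namespace Pool.Agent.R29.OP

namespace A2

variable {k : ℕ} {I : Type} {p : I → E k}

/-- slack functions of affine functionals -/
def Slack (p : I → E k) (s : I → ℝ) : Prop :=
  ∃ (c : E k →L[ℝ] ℝ) (h : ℝ), ∀ i, s i = h - c (p i)

lemma Slack.comb {s s' : I → ℝ} (hs : Slack p s) (hs' : Slack p s') (a b : ℝ) :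
    Slack p (fun i => a * s i + b * s' i) := by
  obtain ⟨c, h, h1⟩ := hs
  obtain ⟨c', h', h2⟩ := hs'
  refine ⟨a • c + b • c', a * h + b * h', fun i => ?_⟩
  simp only [h1, h2, ContinuousLinearMap.add_apply, ContinuousLinearMap.smul_apply, smul_eq_mul]
  ring

lemma slack_zero : Slack p (fun _ => 0) := ⟨0, 0, fun i => by simp⟩

lemma mem_iff {S : Set I} : S ∈ FaceSet p ↔ ∃ s, Slack p s ∧ (∀ i ∈ S, s i = 0) ∧
    ∀ i, i ∉ S → 0 < s i := by
  constructor
  · rintro ⟨c, h, h1, h2⟩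
    refine ⟨fun i => h - c (p i), ⟨c, h, fun i => rfl⟩, fun i hi => ?_, fun i hi => ?_⟩
    · beta_reduce; rw [h1 i hi, sub_self]
    · beta_reduce; linarith [h2 i hi]
  · rintro ⟨s, ⟨c, h, hs⟩, h1, h2⟩
    refine ⟨c, h, fun i hi => ?_, fun i hi => ?_⟩
    · have := h1 i hi
      rw [hs] at this; linarith
    · have := h2 i hi
      rw [hs] at this; linarith

lemma mem_of_zero {s : I → ℝ} (hs : Slack p s) (h0 : ∀ i, 0 ≤ s i) : {i | s i = 0} ∈ FaceSet p :=
  mem_iff.2 ⟨s, hs, fun i hi => hi, fun i hi => lt_of_le_of_ne (h0 i) (Ne.symm hi)⟩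

lemma univ_mem : univ ∈ FaceSet p :=
  mem_iff.2 ⟨_, slack_zero, fun _ _ => rfl, fun i hi => absurd (mem_univ i) hi⟩

variable [Finite I]

lemma exists_facet (S : Set I) (hS : S ∈ FaceSet p) (i : I) (hi : i ∉ S) :
    ∃ F, IsFacet p F ∧ S ⊆ F ∧ i ∉ F := by
  classical
  set 𝒯 : Set (Set I) := {T | T ∈ FaceSet p ∧ S ⊆ T ∧ i ∉ T} with h𝒯
  have hfin : 𝒯.Finite := Set.toFinite _
  obtain ⟨F, hSF, hF⟩ := hfin.exists_le_maximal (show S ∈ 𝒯 from ⟨hS, Subset.rfl, hi⟩)
  obtain ⟨hF1, hF2, hF3⟩ := hF.prop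
  refine ⟨F, ⟨hF1, fun h => hF3 (h ▸ mem_univ i), ?_⟩, hF2, hF3⟩
  intro T hT hTu hFT
  by_contra hne
  have hiT : i ∈ T := by
    by_contra hiT
    exact hne (hF.eq_of_subset (show T ∈ 𝒯 from ⟨hT, hF2.trans hFT, hiT⟩) hFT).symm
  obtain ⟨s, hs, hs0, hspos⟩ := mem_iff.1 hF1
  obtain ⟨s', hs', hs0', hspos'⟩ := mem_iff.1 hT
  have hcompl : (Tᶜ).Nonempty := by
    rw [nonempty_compl]; exact hTu
  obtain ⟨j, hj, hjmin⟩ := (Set.toFinite (Tᶜ)).exists_minimalFor (fun j => s j / s' j) _ hcompl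
  have hmin : ∀ l, l ∉ T → s j / s' j ≤ s l / s' l := by
    intro l hl
    rcases le_total (s j / s' j) (s l / s' l) with h | h
    · exact h
    · exact hjmin hl h
  set t := s j / s' j with ht
  have hj' : j ∉ T := hj
  have hnn : ∀ l, 0 ≤ 1 * s l + (-t) * s' l := by
    intro l
    by_cases hl : l ∈ T
    · rw [hs0' l hl, mul_zero, add_zero, one_mul]
      by_cases hlF : l ∈ F
      · exact (hs0 l hlF).ge
      · exact (hspos l hlF).le
    · have h1 := hmin l hl
      rw [le_div_iff₀ (hspos' l hl)] at h1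
      linarith
  have hZ := mem_of_zero (hs.comb hs' 1 (-t)) hnn
  set Z : Set I := {l | 1 * s l + (-t) * s' l = 0} with hZdef
  have hFZ : F ⊆ Z := by
    intro l hl
    show 1 * s l + (-t) * s' l = 0
    rw [hs0 l hl, hs0' l (hFT hl)]; ring
  have hjZ : j ∈ Z := by
    show 1 * s j + (-t) * s' j = 0
    rw [ht]
    have := (hspos' j hj').ne'
    field_simp
    ring
  have hiZ : i ∉ Z := by
    intro h
    have h' : 1 * s i + (-t) * s' i = 0 := h
    rw [hs0' i hiT] at h'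
    have := hspos i hF3
    linarith
  have hEq := hF.eq_of_subset (show Z ∈ 𝒯 from ⟨hZ, hF2.trans hFZ, hiZ⟩) hFZ
  rw [← hEq] at hjZ
  exact hj' (hFT hjZ)

lemma facet_unique (F : Set I) (hF : IsFacet p F) (s : I → ℝ) (hs : Slack p s)
    (hs0 : ∀ i ∈ F, s i = 0) (s' : I → ℝ) (hs' : Slack p s') (hs0' : ∀ i ∈ F, s' i = 0)
    (hspos' : ∀ i, i ∉ F → 0 < s' i) : ∃ m : ℝ, ∀ i, s i = m * s' i := by
  have hcompl : (Fᶜ).Nonempty := by
    rw [nonempty_compl]; exact hF.2.1
  obtain ⟨j, hj, hjmax⟩ := (Set.toFinite (Fᶜ)).exists_maximalFor (fun j => s j / s' j) _ hcompl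
  have hj' : j ∉ F := hj
  have hmax : ∀ l, l ∉ F → s l / s' l ≤ s j / s' j := by
    intro l hl
    rcases le_total (s l / s' l) (s j / s' j) with h | h
    · exact h
    · exact hjmax hl h
  set m := s j / s' j with hm
  refine ⟨m, ?_⟩
  have hnn : ∀ l, 0 ≤ m * s' l + (-1) * s l := by
    intro l
    by_cases hl : l ∈ F
    · rw [hs0 l hl, hs0' l hl]; simp
    · have h1 := hmax l hl
      rw [div_le_iff₀ (hspos' l hl)] at h1
      linarith
  have hZ := mem_of_zero (hs'.comb hs m (-1)) hnn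
  set Z : Set I := {l | m * s' l + (-1) * s l = 0} with hZdef
  have hFZ : F ⊆ Z := by
    intro l hl
    show m * s' l + (-1) * s l = 0
    rw [hs0 l hl, hs0' l hl]; ring
  have hjZ : j ∈ Z := by
    show m * s' j + (-1) * s j = 0
    rw [hm]
    have := (hspos' j hj').ne'
    field_simp
    ring
  have hZu : Z = univ := by
    by_contra hne
    have := hF.2.2 Z hZ hne hFZ
    rw [this] at hjZ
    exact hj' hjZ
  intro i
  have hi : i ∈ Z := hZu ▸ mem_univ i
  have hi' : m * s' i + (-1) * s i = 0 := hi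
  linarith

lemma inter_mem {S T : Set I} (hS : S ∈ FaceSet p) (hT : T ∈ FaceSet p) : S ∩ T ∈ FaceSet p := by
  obtain ⟨s, hs, hs0, hspos⟩ := mem_iff.1 hS
  obtain ⟨s', hs', hs0', hspos'⟩ := mem_iff.1 hT
  refine mem_iff.2 ⟨_, hs.comb hs' 1 1, fun i hi => ?_, fun i hi => ?_⟩
  · beta_reduce; rw [hs0 i hi.1, hs0' i hi.2]; ring
  · have h1 : 0 ≤ s i := by
      by_cases h : i ∈ S
      · exact (hs0 i h).ge
      · exact (hspos i h).le
    have h2 : 0 ≤ s' i := by
      by_cases h : i ∈ T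
      · exact (hs0' i h).ge
      · exact (hspos' i h).le
    rw [mem_inter_iff, not_and_or] at hi
    rcases hi with h | h
    · have := hspos i h
      beta_reduce; linarith
    · have := hspos' i h
      beta_reduce; linarith

lemma sInter_mem (𝓕 : Set (Set I)) (h : ∀ F ∈ 𝓕, F ∈ FaceSet p) : ⋂₀ 𝓕 ∈ FaceSet p := by
  classical
  have hfin : 𝓕.Finite := Set.toFinite _
  induction 𝓕, hfin using Set.Finite.induction_on with
  | empty => rw [sInter_empty]; exact univ_mem
  | insert _ _ ih =>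
    rw [sInter_insert]
    exact inter_mem (h _ (mem_insert _ _)) (ih fun F hF => h F (mem_insert_of_mem _ hF))

lemma eq_sInter {S : Set I} (hS : S ∈ FaceSet p) : S = ⋂₀ {F | IsFacet p F ∧ S ⊆ F} := by
  apply Subset.antisymm
  · exact subset_sInter fun F hF => hF.2
  · intro i hi
    by_contra hiS
    obtain ⟨F, hF, hSF, hiF⟩ := exists_facet S hS i hiS
    exact hiF (hi F ⟨hF, hSF⟩)

lemma sub_of_facets {q : I → E k} (h : ∀ F, IsFacet p F ↔ IsFacet q F) :
    FaceSet p ⊆ FaceSet q := by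
  intro S hS
  rw [eq_sInter hS]
  exact sInter_mem _ fun F hF => ((h F).1 hF.1).1

end A2

theorem existsFacet : ExistsFacetStm := fun _ _ _ _ S hS i hi => A2.exists_facet S hS i hi

theorem facetUnique : FacetUniqueStm := by
  intro k I _ p F hF c h h1 c' h' h2 h3
  exact A2.facet_unique F hF (fun i => h - c (p i)) ⟨c, h, fun _ => rfl⟩
    (fun i hi => by beta_reduce; rw [h1 i hi, sub_self]) (fun i => h' - c' (p i))
    ⟨c', h', fun _ => rfl⟩ (fun i hi => by beta_reduce; rw [h2 i hi, sub_self])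
    (fun i hi => by beta_reduce; linarith [h3 i hi])

theorem faceSetEq : FaceSetEqStm := fun _ _ _ _ _ h =>
  Subset.antisymm (A2.sub_of_facets h) (A2.sub_of_facets fun F => (h F).symm)

end Pool.Agent.R29.OP

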