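import Pool.Agent.R29.OP.Stm

/-! Piece B for MP_7b675e_co: nearby configurations. -/

set_option autoImplicit false

open Set Metric Filter Topology

namespace Pool.Agent.R29.OP

namespace B

lemma upper_one {k m : ℕ} {I : Type} [Finite I] (p : E m → I → E k) (x₀ : E m)
    (hp : ∀ i, Continuous fun x => p x i) (hsp : Spans (p x₀)) (S : Set I) (hS : S ≠ univ)
    (hT : ¬ ∃ T ∈ FaceSet (p x₀), T ≠ univ ∧ S ⊆ T) : ∀ᶠ x in 𝓝 x₀, S ∉ FaceSet (p x) := by
  by_contra hcon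
  have hfr : ∃ᶠ x in 𝓝 x₀, S ∈ FaceSet (p x) := by
    rw [Filter.Frequently]; exact hcon
  obtain ⟨x, hx, hxS⟩ := Filter.exists_seq_forall_of_frequently hfr
  have hSne : S.Nonempty := by
    by_contra h
    rw [Set.not_nonempty_iff_eq_empty] at h
    subst h
    refine hT ⟨∅, ⟨0, 1, fun i hi => absurd hi (notMem_empty i), fun i _ => ?_⟩, hS, Subset.rfl⟩
    simp
  obtain ⟨i0, hi0⟩ := hSne
  obtain ⟨j0, hj0⟩ : ∃ j, j ∉ S := by
    by_contra h
    push Not at h
    exact hS (eq_univ_of_forall h)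
  choose c h hc1 hc2 using hxS
  have hc0 : ∀ n, c n ≠ 0 := by
    intro n h0
    have h1 := hc1 n i0 hi0
    have h2 := hc2 n j0 hj0
    rw [h0] at h1 h2
    simp only [ContinuousLinearMap.zero_apply] at h1 h2
    linarith
  have hn0 : ∀ n, 0 < ‖c n‖ := fun n => norm_pos_iff.2 (hc0 n)
  have : ProperSpace (E k →L[ℝ] ℝ) := FiniteDimensional.proper ℝ _
  have hmem : ∀ n, (‖c n‖⁻¹ • c n) ∈ sphere (0 : E k →L[ℝ] ℝ) 1 := by
    intro n
    rw [mem_sphere_zero_iff_norm, norm_smul, norm_inv, norm_norm, inv_mul_cancel₀ (hn0 n).ne']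
  obtain ⟨a, ha, φ, hφ, hlim⟩ := (isCompact_sphere (0 : E k →L[ℝ] ℝ) 1).tendsto_subseq hmem
  have ha1 : ‖a‖ = 1 := mem_sphere_zero_iff_norm.1 ha
  have hev : ∀ i, Tendsto (fun n => (‖c (φ n)‖⁻¹ • c (φ n)) (p (x (φ n)) i)) atTop
      (𝓝 (a (p x₀ i))) := by
    intro i
    have h1 : Tendsto (fun n => p (x (φ n)) i) atTop (𝓝 (p x₀ i)) :=
      ((hp i).tendsto x₀).comp (hx.comp hφ.tendsto_atTop)
    have h2 := (isBoundedBilinearMap_apply (𝕜 := ℝ) (E := E k) (F := ℝ)).continuous.tendsto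
      (a, p x₀ i)
    exact h2.comp (hlim.prodMk_nhds h1)
  have hle : ∀ i, a (p x₀ i) ≤ a (p x₀ i0) := by
    intro i
    refine le_of_tendsto_of_tendsto' (hev i) (hev i0) fun n => ?_
    simp only [ContinuousLinearMap.smul_apply, smul_eq_mul]
    apply mul_le_mul_of_nonneg_left _ (inv_nonneg.2 (norm_nonneg _))
    rw [hc1 _ i0 hi0]
    by_cases hi : i ∈ S
    · exact (hc1 _ i hi).le
    · exact (hc2 _ i hi).le
  have hEq : ∀ i ∈ S, a (p x₀ i) = a (p x₀ i0) := by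
    intro i hi
    refine tendsto_nhds_unique (hev i) ?_
    refine (hev i0).congr fun n => ?_
    simp only [ContinuousLinearMap.smul_apply, smul_eq_mul]
    rw [hc1 _ i0 hi0, hc1 _ i hi]
  refine hT ⟨{i | a (p x₀ i) = a (p x₀ i0)}, ⟨a, a (p x₀ i0), fun i hi => hi, fun i hi =>
    lt_of_le_of_ne (hle i) hi⟩, ?_, fun i hi => hEq i hi⟩
  intro hu
  have h0 : a = 0 := hsp a (a (p x₀ i0)) fun i => by
    have : i ∈ {i | a (p x₀ i) = a (p x₀ i0)} := hu ▸ mem_univ i
    exact this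
  rw [h0, norm_zero] at ha1
  exact zero_ne_one ha1

end B

theorem upper : UpperStm := by
  intro k m I _ p x₀ hp hsp
  have : ∀ S : Set I, ∀ᶠ x in 𝓝 x₀, S ∈ FaceSet (p x) → S ≠ univ →
      ∃ T ∈ FaceSet (p x₀), T ≠ univ ∧ S ⊆ T := by
    intro S
    by_cases hS : S = univ
    · exact Eventually.of_forall fun x _ h => absurd hS h
    by_cases hT : ∃ T ∈ FaceSet (p x₀), T ≠ univ ∧ S ⊆ T
    · exact Eventually.of_forall fun x _ _ => hT
    · filter_upwards [B.upper_one p x₀ hp hsp S hS hT] with x hx h _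
      exact absurd h hx
  rw [← Filter.eventually_all] at this
  exact this

theorem localConst (h2 : ExistsFacetStm) (h4 : FaceSetEqStm) : LocalConstStm := by
  intro k m I _ p x₀ Z hp hsp hZ
  have hU := upper k m I p x₀ hp hsp
  have hA : ∀ᶠ x in 𝓝[Z] x₀, ∀ F, IsFacet (p x₀) F → F ∈ FaceSet (p x) := by
    rw [Filter.eventually_all]
    intro F
    by_cases hF : IsFacet (p x₀) F
    · filter_upwards [hZ F hF] with x hx _ using hx
    · exact Eventually.of_forall fun x h => absurd h hF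
  filter_upwards [hA, nhdsWithin_le_nhds hU] with x hx hxU
  have key : ∀ F, IsFacet (p x) F → IsFacet (p x₀) F := by
    intro F hF
    obtain ⟨T, hT, hTu, hFT⟩ := hxU F hF.1 hF.2.1
    obtain ⟨i, hi⟩ : ∃ i, i ∉ T := by
      by_contra h
      push Not at h
      exact hTu (eq_univ_of_forall h)
    obtain ⟨F0, hF0, hTF0, hiF0⟩ := h2 k I (p x₀) T hT i hi
    have := hF.2.2 F0 (hx F0 hF0) hF0.2.1 (hFT.trans hTF0)
    rw [← this]; exact hF0
  apply h4 k I (p x) (p x₀)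
  intro F
  refine ⟨key F, fun hF => ?_⟩
  obtain ⟨i, hi⟩ : ∃ i, i ∉ F := by
    by_contra h
    push Not at h
    exact hF.2.1 (eq_univ_of_forall h)
  obtain ⟨F1, hF1, hFF1, -⟩ := h2 k I (p x) F (hx F hF) i hi
  have h3 := key F1 hF1
  have := hF.2.2 F1 h3.1 h3.2.1 hFF1
  rw [← this]; exact hF1

end Pool.Agent.R29.OP

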