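import Pool.Agent.R29.OP.Stm

/-!
# MP_7b675e_co, piece C: a criterion for not being a `C¹` submanifold
-/

set_option autoImplicit false

open Set Metric Filter Topology

namespace Pool.Agent.R29.OP

namespace PieceC

theorem deriv_mem {k : ℕ} {M : Set (E k)} {φ : OpenPartialHomeomorph (E k) (E k)}
    {W : Submodule ℝ (E k)} {w v : E k} {A : E k →L[ℝ] E k} (hw : w ∈ φ.source)
    (hφ : φ '' (M ∩ φ.source) = (W : Set (E k)) ∩ φ.target) (hA : HasFDerivAt φ A w)
    (hwW : φ w ∈ W) {γ : ℝ → E k} (h0 : γ 0 = w) (hγ : HasDerivAt γ v 0)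
    (hM : ∀ᶠ t in 𝓝[>] (0 : ℝ), γ t ∈ M) : A v ∈ W := by
  have h1 : HasDerivAt (fun t => φ (γ t)) (A v) 0 := by
    have h2 : HasFDerivAt φ A (γ 0) := by rw [h0]; exact hA
    exact h2.comp_hasDerivAt 0 hγ
  rw [hasDerivAt_iff_tendsto_slope_zero] at h1
  have h3 : Tendsto (fun t : ℝ => t⁻¹ • (φ (γ (0 + t)) - φ (γ 0))) (𝓝[>] 0) (𝓝 (A v)) :=
    h1.mono_left (nhdsWithin_mono _ fun t ht => ne_of_gt ht)
  have hcl : IsClosed (W : Set (E k)) := W.closed_of_finiteDimensional
  refine hcl.mem_of_tendsto h3 ?_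
  have hs : ∀ᶠ t in 𝓝[>] (0 : ℝ), γ t ∈ φ.source := by
    have h4 : Tendsto γ (𝓝 0) (𝓝 w) := by
      have := hγ.continuousAt.tendsto
      rwa [h0] at this
    exact (h4.eventually (φ.open_source.mem_nhds hw)).filter_mono nhdsWithin_le_nhds
  filter_upwards [hM, hs] with t ht1 ht2
  rw [zero_add, h0]
  refine W.smul_mem _ (W.sub_mem ?_ hwW)
  have h5 : φ (γ t) ∈ φ '' (M ∩ φ.source) := ⟨γ t, ⟨ht1, ht2⟩, rfl⟩
  rw [hφ] at h5
  exact h5.1

theorem mem_of_map {k : ℕ} {M : Set (E k)} {φ : OpenPartialHomeomorph (E k) (E k)}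
    {W : Submodule ℝ (E k)} (hφ : φ '' (M ∩ φ.source) = (W : Set (E k)) ∩ φ.target) {y : E k}
    (hy : y ∈ φ.source) (hW : φ y ∈ W) : y ∈ M := by
  have h1 : φ y ∈ (W : Set (E k)) ∩ φ.target := ⟨hW, φ.map_source hy⟩
  rw [← hφ] at h1
  obtain ⟨z, ⟨hz1, hz2⟩, hz3⟩ := h1
  rw [← φ.injOn hz2 hy hz3]
  exact hz1

theorem sign_ev {f : ℝ → ℝ} {c c' : ℝ} (h0 : f 0 = 0) (hf : HasDerivAt f c' 0)
    (hc : 0 < c' * c) : ∀ᶠ t in 𝓝[>] (0 : ℝ), 0 < f t * c := by
  rw [hasDerivAt_iff_tendsto_slope_zero] at hf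
  have h3 : Tendsto (fun t : ℝ => t⁻¹ • (f (0 + t) - f 0)) (𝓝[>] 0) (𝓝 c') :=
    hf.mono_left (nhdsWithin_mono _ fun t ht => ne_of_gt ht)
  have h4 := (h3.mul_const c).eventually (lt_mem_nhds hc)
  filter_upwards [h4, self_mem_nhdsWithin] with t ht1 ht2
  have ht : 0 < t := ht2
  rw [zero_add, h0, sub_zero, smul_eq_mul] at ht1
  have h5 : f t * c = t * (t⁻¹ * f t * c) := by
    field_simp
  rw [h5]
  exact mul_pos ht ht1

end PieceC

open PieceC in
/-- C. -/
theorem notC1 : NotC1Stm := by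
  intro k M w u D hwM hspan hu hD hout hsub
  obtain ⟨φ, W, hws, hφ1, hφ2, hφ⟩ := hsub w hwM
  have hwW : φ w ∈ W := by
    have h1 : φ w ∈ φ '' (M ∩ φ.source) := ⟨w, ⟨hwM, hws⟩, rfl⟩
    rw [hφ] at h1
    exact h1.1
  have hdiff : DifferentiableAt ℝ φ w :=
    (hφ1.contDiffAt (φ.open_source.mem_nhds hws)).differentiableAt (by norm_num)
  have hA : HasFDerivAt φ (fderiv ℝ φ w) w := hdiff.hasFDerivAt
  set A : E k →L[ℝ] E k := fderiv ℝ φ w with hAdef
  have hws' : φ w ∈ φ.target := φ.map_source hws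
  have hdiff2 : DifferentiableAt ℝ φ.symm (φ w) :=
    (hφ2.contDiffAt (φ.open_target.mem_nhds hws')).differentiableAt (by norm_num)
  have hB : HasFDerivAt φ.symm (fderiv ℝ φ.symm (φ w)) (φ w) := hdiff2.hasFDerivAt
  have hAinj : Function.Injective A := by
    have h1 : HasFDerivAt (fun x => φ.symm (φ x)) ((fderiv ℝ φ.symm (φ w)).comp A) w :=
      hB.comp w hA
    have h2 : HasFDerivAt (fun x => φ.symm (φ x)) (ContinuousLinearMap.id ℝ (E k)) w := by
      refine (hasFDerivAt_id w).congr_of_eventuallyEq ?_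
      filter_upwards [φ.open_source.mem_nhds hws] with x hx
      exact φ.left_inv hx
    have h3 := h1.unique h2
    intro x y hxy
    have h4 := congrArg (fun L : E k →L[ℝ] E k => L x) h3
    have h5 := congrArg (fun L : E k →L[ℝ] E k => L y) h3
    simp only [ContinuousLinearMap.comp_apply, ContinuousLinearMap.id_apply] at h4 h5
    rw [← h4, ← h5, hxy]
  have hAsurj : Function.Surjective A :=
    (LinearMap.injective_iff_surjective (f := (A : E k →ₗ[ℝ] E k))).1 hAinj
  have hDW : ∀ v ∈ Submodule.span ℝ D, A v ∈ W := by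
    intro v hv
    have h1 : Submodule.span ℝ D ≤ W.comap (A : E k →ₗ[ℝ] E k) := by
      rw [Submodule.span_le]
      intro v hv
      obtain ⟨γ, h0, hγ, hγM⟩ := hD v hv
      exact deriv_mem hws hφ hA hwW h0 hγ hγM
    exact h1 hv
  -- the two parameter family
  have hcont : Continuous fun q : ℝ × ℝ => w + q.1 • u + q.2 • w := by fun_prop
  have hsrc : ∀ᶠ q : ℝ × ℝ in 𝓝 (0, 0), w + q.1 • u + q.2 • w ∈ φ.source := by
    have h1 : Tendsto (fun q : ℝ × ℝ => w + q.1 • u + q.2 • w) (𝓝 (0, 0)) (𝓝 w) := by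
      have := hcont.tendsto (0, 0)
      simpa using this
    exact h1.eventually (φ.open_source.mem_nhds hws)
  obtain ⟨δ, hδ, hball⟩ := Metric.eventually_nhds_iff.1 (hsrc.and hout)
  have hbox : ∀ t s : ℝ, |t| < δ → |s| < δ →
      w + t • u + s • w ∈ φ.source ∧ (t ≠ 0 → w + t • u + s • w ∉ M) := by
    intro t s ht hs
    refine hball (y := (t, s)) ?_
    rw [Prod.dist_eq]
    simp only [Real.dist_eq, sub_zero]
    exact max_lt ht hs
  by_cases hWtop : W = ⊤
  · have h1 := hbox (δ / 2) 0 (by rw [abs_of_pos (by positivity)]; linarith) (by simpa using hδ)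
    exact h1.2 (by positivity) (mem_of_map hφ h1.1 (by rw [hWtop]; trivial))
  obtain ⟨l, hl0, hlW⟩ := Submodule.exists_le_ker_of_lt_top W (lt_top_iff_ne_top.2 hWtop)
  have hlD : ∀ v ∈ Submodule.span ℝ D, l (A v) = 0 := fun v hv => hlW (hDW v hv)
  have hdecomp : ∀ z : E k, ∃ d ∈ Submodule.span ℝ D, ∃ b : ℝ, z = d + b • w := by
    intro z
    have hz : z ∈ Submodule.span ℝ D ⊔ Submodule.span ℝ {w} := by rw [hspan]; trivial
    obtain ⟨d, hd, y, hy, hdy⟩ := Submodule.mem_sup.1 hz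
    obtain ⟨b, hb⟩ := Submodule.mem_span_singleton.1 hy
    exact ⟨d, hd, b, by rw [hb, hdy]⟩
  have hcw : l (A w) ≠ 0 := by
    intro h0
    apply hl0
    apply LinearMap.ext
    intro y
    obtain ⟨z, rfl⟩ := hAsurj y
    obtain ⟨d, hd, b, rfl⟩ := hdecomp z
    rw [map_add, map_smul, map_add, map_smul, hlD d hd, h0]
    simp
  have hker : ∀ y, l y = 0 → y ∈ W := by
    intro y hy
    obtain ⟨z, rfl⟩ := hAsurj y
    obtain ⟨d, hd, b, rfl⟩ := hdecomp z
    rw [map_add, map_smul, map_add, map_smul, hlD d hd, zero_add, smul_eq_mul] at hy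
    have hb : b = 0 := by
      rcases mul_eq_zero.1 hy with h | h
      · exact h
      · exact absurd h hcw
    rw [hb, zero_smul, add_zero]
    exact hDW d hd
  have hg0 : l (φ w) = 0 := hlW hwW
  set c := l (A w) with hc
  let lc : E k →L[ℝ] ℝ := LinearMap.toContinuousLinearMap l
  have hlc : ∀ y, lc y = l y := fun y => rfl
  have hline : ∀ a b : ℝ, HasDerivAt (fun t : ℝ => l (φ (w + (a * t) • u + (b * t) • w)))
      (b * c) 0 := by
    intro a b
    have h1 : HasDerivAt (fun t : ℝ => w + (a * t) • u + (b * t) • w) (a • u + b • w) 0 := by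
      have h2 : HasDerivAt (fun t : ℝ => a * t) a 0 := by
        simpa using (hasDerivAt_id (0 : ℝ)).const_mul a
      have h3 : HasDerivAt (fun t : ℝ => b * t) b 0 := by
        simpa using (hasDerivAt_id (0 : ℝ)).const_mul b
      exact ((h2.smul_const u).const_add w).add (h3.smul_const w)
    have h4 : HasFDerivAt φ A (w + (a * 0) • u + (b * 0) • w) := by
      simpa using hA
    have h5 : HasDerivAt (fun t : ℝ => φ (w + (a * t) • u + (b * t) • w)) (A (a • u + b • w)) 0 :=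
      HasFDerivAt.comp_hasDerivAt (0 : ℝ) h4 h1
    have h6 : HasDerivAt (fun t : ℝ => lc (φ (w + (a * t) • u + (b * t) • w)))
        (lc (A (a • u + b • w))) 0 :=
      lc.hasFDerivAt.comp_hasDerivAt (0 : ℝ) h5
    have h7 : lc (A (a • u + b • w)) = b * c := by
      rw [hlc, map_add, map_smul, map_smul, map_add, map_smul, map_smul, hlD u hu]
      simp [hc]
    rw [h7] at h6
    exact h6
  have hcc : 0 < c * c := mul_self_pos.2 hcw
  have h1 := sign_ev (c := c) (by simpa using hg0) (hline 1 1) (by simpa using hcc)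
  have h2 := sign_ev (c := -c) (by simpa using hg0) (hline 1 (-1)) (by nlinarith)
  have h3 : ∀ᶠ t in 𝓝[>] (0 : ℝ), t < δ :=
    (gt_mem_nhds hδ).filter_mono nhdsWithin_le_nhds
  obtain ⟨t, ⟨⟨ht1, ht2⟩, ht3⟩, ht4⟩ := (((h1.and h2).and h3).and self_mem_nhdsWithin).exists
  have ht0 : 0 < t := ht4
  have habs : ∀ s ∈ Icc (-t) t, |s| < δ := by
    intro s hs
    rw [abs_lt]
    constructor
    · linarith [hs.1]
    · linarith [hs.2]
  have htabs : |t| < δ := by rw [abs_of_pos ht0]; exact ht3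
  have hcontOn : ContinuousOn (fun s : ℝ => l (φ (w + t • u + s • w)) * c) (Icc (-t) t) := by
    refine ContinuousOn.mul ?_ continuousOn_const
    have h4 : ContinuousOn (fun s : ℝ => lc (φ (w + t • u + s • w))) (Icc (-t) t) := by
      refine lc.continuous.comp_continuousOn ?_
      refine φ.continuousOn.comp ?_ ?_
      · fun_prop
      · intro s hs
        exact (hbox t s htabs (habs s hs)).1
    exact h4
  have hivt := intermediate_value_Icc (by linarith : -t ≤ t) hcontOn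
  have hmem : (0 : ℝ) ∈ Icc (l (φ (w + t • u + (-t) • w)) * c) (l (φ (w + t • u + t • w)) * c) := by
    simp only [one_mul, neg_mul] at ht1 ht2
    constructor
    · nlinarith
    · exact ht1.le
  obtain ⟨s, hs, hs0⟩ := hivt hmem
  have hs1 : l (φ (w + t • u + s • w)) = 0 := by
    rcases mul_eq_zero.1 hs0 with h | h
    · exact h
    · exact absurd h hcw
  have hb := hbox t s htabs (habs s hs)
  exact hb.2 ht0.ne' (mem_of_map hφ hb.1 (hker _ hs1))

end Pool.Agent.R29.OP
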