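import Pool.Agent.R29.OP.Stm

set_option autoImplicit false

open Set Metric

namespace Pool.Agent.R29.OP

theorem mulN_facts (i j : ℕ) (hi : i < 48) (hj : j < 48) :
    mulN i j < 48 ∧ ∀ a < 4, pn (mulN i j) a = pn j (pn i a) ∧
      sn (mulN i j) a = sn i a * sn j (pn i a) := by
  have h := mul_check
  rw [List.all_eq_true] at h
  have h1 := h i (List.mem_range.2 hi)
  rw [List.all_eq_true] at h1
  have h2 := h1 j (List.mem_range.2 hj)
  rw [Bool.and_eq_true, decide_eq_true_eq, List.all_eq_true] at h2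
  refine ⟨h2.1, fun a ha => ?_⟩
  have h3 := h2.2 a (List.mem_range.2 ha)
  rw [Bool.and_eq_true, decide_eq_true_eq, decide_eq_true_eq] at h3
  exact h3

theorem invN_facts (i : ℕ) (hi : i < 48) :
    invN i < 48 ∧ mulN i (invN i) = 0 ∧ mulN (invN i) i = 0 := by
  have h := inv_check
  rw [List.all_eq_true] at h
  have h1 := h i (List.mem_range.2 hi)
  rw [Bool.and_eq_true, Bool.and_eq_true, decide_eq_true_eq, decide_eq_true_eq,
    decide_eq_true_eq] at h1
  exact ⟨h1.1.1, h1.1.2, h1.2⟩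

theorem id_facts (a : ℕ) (ha : a < 4) : pn 0 a = a ∧ sn 0 a = 1 := by
  have h := id_check
  rw [List.all_eq_true] at h
  have h1 := h a (List.mem_range.2 ha)
  rw [Bool.and_eq_true, decide_eq_true_eq, decide_eq_true_eq] at h1
  exact h1

theorem assoc_check : (List.range 48).all (fun i => (List.range 48).all fun j =>
    decide (mulN (invN i) (mulN i j) = j) && decide (mulN i (mulN (invN i) j) = j)) = true := by
  decide +kernel

theorem assoc_facts (i j : ℕ) (hi : i < 48) (hj : j < 48) :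
    mulN (invN i) (mulN i j) = j ∧ mulN i (mulN (invN i) j) = j := by
  have h := assoc_check
  rw [List.all_eq_true] at h
  have h1 := h i (List.mem_range.2 hi)
  rw [List.all_eq_true] at h1
  have h2 := h1 j (List.mem_range.2 hj)
  rw [Bool.and_eq_true, decide_eq_true_eq, decide_eq_true_eq] at h2
  exact h2

theorem conf_apply (w : E 4) (i : Fin 48) (a : Fin 4) :
    conf w i a = (sn i a : ℝ) * w ⟨pn i a, pn_lt _ _⟩ := by
  fin_cases a <;> simp [conf]

theorem sn_sq (i a : ℕ) : ((sn i a : ℤ) : ℝ) ^ 2 = 1 := by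
  unfold sn
  split_ifs <;> norm_num

/-- product of indices -/
def mulI (i j : Fin 48) : Fin 48 := ⟨mulN i j, (mulN_facts i j i.2 j.2).1⟩
/-- inverse index -/
def invI (i : Fin 48) : Fin 48 := ⟨invN i, (invN_facts i i.2).1⟩

theorem conf_conf (w : E 4) (i j : Fin 48) : conf (conf w j) i = conf w (mulI i j) := by
  ext a
  rw [conf_apply, conf_apply, conf_apply]
  obtain ⟨h1, h2⟩ := (mulN_facts i j i.2 j.2).2 a a.2
  have h3 : (⟨pn (mulI i j : Fin 48) a, pn_lt _ _⟩ : Fin 4) = ⟨pn j (pn i a), pn_lt _ _⟩ := by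
    apply Fin.ext
    exact h1
  rw [h3]
  have h4 : sn ((mulI i j : Fin 48) : ℕ) a = sn i a * sn j (pn i a) := h2
  rw [h4]
  push_cast
  ring

theorem conf_zero (w : E 4) : conf w 0 = w := by
  ext a
  rw [conf_apply]
  obtain ⟨h1, h2⟩ := id_facts a a.2
  have h3 : (⟨pn ((0 : Fin 48) : ℕ) a, pn_lt _ _⟩ : Fin 4) = a := by
    apply Fin.ext
    exact h1
  rw [h3]
  have h4 : sn ((0 : Fin 48) : ℕ) a = 1 := h2
  rw [h4]
  simp

theorem mulI_inv (i : Fin 48) : mulI i (invI i) = 0 := by
  apply Fin.ext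
  exact (invN_facts i i.2).2.1

theorem inv_mulI (i : Fin 48) : mulI (invI i) i = 0 := by
  apply Fin.ext
  exact (invN_facts i i.2).2.2

theorem conf_inv_left (w : E 4) (i : Fin 48) : conf (conf w i) (invI i) = w := by
  rw [conf_conf, inv_mulI, conf_zero]

theorem conf_inv_right (w : E 4) (i : Fin 48) : conf (conf w (invI i)) i = w := by
  rw [conf_conf, mulI_inv, conf_zero]

/-- the permutation of the coordinates -/
def pF (i : Fin 48) (a : Fin 4) : Fin 4 := ⟨pn i a, pn_lt _ _⟩

theorem pF_surj (i : Fin 48) : Function.Surjective (pF i) := by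
  intro a
  refine ⟨pF (invI i) a, ?_⟩
  apply Fin.ext
  change pn i (pn (invI i : Fin 48) a) = a
  have h := ((mulN_facts (invI i : Fin 48) i (invI i).2 i.2).2 a a.2).1
  rw [← h]
  have h2 : mulN (invI i : Fin 48) i = 0 := (invN_facts i i.2).2.2
  rw [h2]
  exact (id_facts a a.2).1

theorem conf_norm (w : E 4) (i : Fin 48) : ‖conf w i‖ = ‖w‖ := by
  rw [EuclideanSpace.norm_eq, EuclideanSpace.norm_eq]
  congr 1
  have hb : Function.Bijective (pF i) := (Finite.surjective_iff_bijective).1 (pF_surj i)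
  rw [← Equiv.sum_comp (Equiv.ofBijective (pF i) hb) (fun a => ‖w a‖ ^ 2)]
  apply Finset.sum_congr rfl
  intro a _
  rw [conf_apply, norm_mul, mul_pow]
  have h1 : ‖((sn i a : ℤ) : ℝ)‖ ^ 2 = 1 := by
    rw [Real.norm_eq_abs, sq_abs, sn_sq]
  rw [h1, one_mul]
  rfl

/-- the linear isometry with index `i` -/
noncomputable def LI (i : Fin 48) : E 4 ≃ₗᵢ[ℝ] E 4 where
  toFun x := conf x i
  invFun x := conf x (invI i)
  left_inv x := conf_inv_left x i
  right_inv x := conf_inv_right x i
  map_add' x y := by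
    ext a
    rw [PiLp.add_apply, conf_apply, conf_apply, conf_apply, PiLp.add_apply]
    ring
  map_smul' c x := by
    ext a
    rw [PiLp.smul_apply, conf_apply, conf_apply, PiLp.smul_apply]
    simp only [smul_eq_mul, RingHom.id_apply]
    ring
  norm_map' x := conf_norm x i

theorem LI_apply (i : Fin 48) (w : E 4) : LI i w = conf w i := rfl

theorem LI_mul (i j : Fin 48) : LI i * LI j = LI (mulI i j) := by
  ext1 x
  exact conf_conf x i j

theorem LI_zero : LI 0 = 1 := by
  ext1 x
  exact conf_zero x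

theorem LI_inv (i : Fin 48) : (LI i)⁻¹ = LI (invI i) := by
  rw [inv_eq_iff_mul_eq_one, LI_mul, mulI_inv, LI_zero]

/-- the subgroup -/
noncomputable def GG : Subgroup (E 4 ≃ₗᵢ[ℝ] E 4) where
  carrier := range LI
  mul_mem' := by
    rintro _ _ ⟨i, rfl⟩ ⟨j, rfl⟩
    exact ⟨mulI i j, (LI_mul i j).symm⟩
  one_mem' := ⟨0, LI_zero⟩
  inv_mem' := by
    rintro _ ⟨i, rfl⟩
    exact ⟨invI i, (LI_inv i).symm⟩

theorem groupStm : GroupStm := by
  refine ⟨LI, GG, fun i w => rfl, fun g => Iff.rfl, fun i j => ⟨mulI i j, rfl, LI_mul i j⟩, ?_, ?_⟩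
  · exact (Set.finite_range LI).to_subtype
  · intro w
    ext x
    constructor
    · rintro ⟨_, ⟨i, rfl⟩, rfl⟩
      exact ⟨i, rfl⟩
    · rintro ⟨i, rfl⟩
      exact ⟨LI i, ⟨i, rfl⟩, rfl⟩

theorem mulF_eq (i j : Fin 48) : mulF i j = mulI i j := by
  apply Fin.ext
  exact Nat.mod_eq_of_lt (mulN_facts i j i.2 j.2).1

theorem mulF_left (i : Fin 48) : Function.LeftInverse (mulF (invI i)) (mulF i) := by
  intro j
  rw [mulF_eq, mulF_eq]
  apply Fin.ext
  exact (assoc_facts i j i.2 j.2).1

theorem mulF_right (i : Fin 48) : Function.RightInverse (mulF (invI i)) (mulF i) := by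
  intro j
  rw [mulF_eq, mulF_eq]
  apply Fin.ext
  exact (assoc_facts i j i.2 j.2).2

theorem face_trans (w : E 4) (i : Fin 48) (S : Set (Fin 48)) (hS : S ∈ FaceSet (conf w)) :
    (mulF i) '' S ∈ FaceSet (conf w) := by
  obtain ⟨c, h, h1, h2⟩ := hS
  refine ⟨c.comp ((LI (invI i)).toContinuousLinearEquiv : E 4 →L[ℝ] E 4), h, ?_, ?_⟩
  · rintro _ ⟨j, hj, rfl⟩
    have e : c.comp ((LI (invI i)).toContinuousLinearEquiv : E 4 →L[ℝ] E 4) (conf w (mulF i j))
        = c (conf (conf w (mulF i j)) (invI i)) := rfl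
    rw [e, mulF_eq, ← conf_conf, conf_inv_left]
    exact h1 j hj
  · intro j hj
    have e : c.comp ((LI (invI i)).toContinuousLinearEquiv : E 4 →L[ℝ] E 4) (conf w j)
        = c (conf (conf w j) (invI i)) := rfl
    rw [e, conf_conf, ← mulF_eq]
    apply h2
    intro hh
    exact hj ⟨_, hh, mulF_right i j⟩

theorem transStm : TransStm := by
  intro w i S
  refine ⟨⟨invI i, mulF_left i, mulF_right i⟩, face_trans w i S, ?_, ?_⟩
  · rintro ⟨h1, h2, h3⟩
    refine ⟨face_trans w i S h1, ?_, ?_⟩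
    · intro h
      apply h2
      rw [eq_univ_iff_forall] at h ⊢
      intro j
      obtain ⟨k, hk, hkj⟩ := h (mulF i j)
      have : k = j := (mulF_left i).injective hkj
      rwa [← this]
    · intro T hT hTu hST
      have hT' := face_trans w (invI i) T hT
      have e1 : (mulF (invI i)) '' T = (mulF i) ⁻¹' T :=
        congrFun (Set.image_eq_preimage_of_inverse (mulF_right i) (mulF_left i)) T
      rw [e1] at hT'
      have hne : (mulF i) ⁻¹' T ≠ univ := by
        intro h
        apply hTu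
        rw [eq_univ_iff_forall] at h ⊢
        intro j
        have := h (mulF (invI i) j)
        rw [mem_preimage, mulF_right i j] at this
        exact this
      have hsub : S ⊆ (mulF i) ⁻¹' T := by
        intro j hj
        exact hST ⟨j, hj, rfl⟩
      have h4 := h3 _ hT' hne hsub
      rw [← h4, Set.image_preimage_eq T (mulF_right i).surjective]
  · intro j
    refine ⟨invI j, ?_⟩
    rw [mulF_eq, inv_mulI]

end Pool.Agent.R29.OP
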