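import Mathlib

/-!
# Orbit polytopes: definitions (MP_7b675e_co)

`E k` is Euclidean space `ℝ^k`, `O(k)` is its group of linear isometries.
-/

set_option autoImplicit false

open Set Metric

namespace Pool.Agent.R29.OP

/-- Euclidean space `ℝ^k`. -/
abbrev E (k : ℕ) := EuclideanSpace ℝ (Fin k)

/-- The orbit polytope `Q_w = conv (Γ w)`. -/
def orbitPolytope {k : ℕ} (Γ : Subgroup (E k ≃ₗᵢ[ℝ] E k)) (w : E k) : Set (E k) :=
  convexHull ℝ {x | ∃ g ∈ Γ, g w = x}

/-- The face lattice of a polytope `P`: the set of its faces (the empty set, and the sets of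
points of `P` where some linear functional attains its maximum over `P`; the zero functional
gives `P` itself), ordered by inclusion. -/
abbrev FaceLattice {k : ℕ} (P : Set (E k)) := {F : Set (E k) // IsExposed ℝ P F}

/-- Two polytopes have the same combinatorial type: their face lattices are isomorphic. -/
def SameType {k : ℕ} (P P' : Set (E k)) : Prop := Nonempty (FaceLattice P ≃o FaceLattice P')

/-- The class of `w` in the sphere of radius `r` about the origin. -/
def typeClass {k : ℕ} (Γ : Subgroup (E k ≃ₗᵢ[ℝ] E k)) (r : ℝ) (w : E k) : Set (E k) :=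
  {w' | w' ∈ sphere (0 : E k) r ∧ SameType (orbitPolytope Γ w') (orbitPolytope Γ w)}

/-- `M` is an embedded `C¹` submanifold of `ℝ^k`: about each of its points some local `C¹`
diffeomorphism of `ℝ^k` carries `M` onto (an open part of) a linear subspace. -/
def IsC1Submanifold {k : ℕ} (M : Set (E k)) : Prop :=
  ∀ x ∈ M, ∃ (φ : OpenPartialHomeomorph (E k) (E k)) (W : Submodule ℝ (E k)),
    x ∈ φ.source ∧ ContDiffOn ℝ 1 φ φ.source ∧ ContDiffOn ℝ 1 φ.symm φ.target ∧
      φ '' (M ∩ φ.source) = (W : Set (E k)) ∩ φ.target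

/-- The full statement to be proved. -/
def MainStatement : Prop :=
  ∃ (k : ℕ) (Γ : Subgroup (E k ≃ₗᵢ[ℝ] E k)) (r : ℝ) (w : E k),
    1 ≤ k ∧ Finite Γ ∧ 0 < r ∧ w ∈ sphere (0 : E k) r ∧
      ¬ IsC1Submanifold (connectedComponentIn (typeClass Γ r w) w)

/-! ## Labelled face structures of point configurations -/

/-- The index sets of the faces of the configuration `p`: `S` is the set of indices at which the
affine inequality `c · p i ≤ h`, valid for all `i`, is an equality. -/
def FaceSet {k : ℕ} {I : Type*} (p : I → E k) : Set (Set I) :=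
  {S | ∃ (c : E k →L[ℝ] ℝ) (h : ℝ), (∀ i ∈ S, c (p i) = h) ∧ (∀ i, i ∉ S → c (p i) < h)}

/-- A facet of the configuration: a maximal proper face. -/
def IsFacet {k : ℕ} {I : Type*} (p : I → E k) (S : Set I) : Prop :=
  S ∈ FaceSet p ∧ S ≠ univ ∧ ∀ T ∈ FaceSet p, T ≠ univ → S ⊆ T → T = S

/-- the configuration spans: no nonzero linear functional is constant on it. -/
def Spans {k : ℕ} {I : Type*} (p : I → E k) : Prop :=
  ∀ (c : E k →L[ℝ] ℝ) (h : ℝ), (∀ i, c (p i) = h) → c = 0

end Pool.Agent.R29.OP
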