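import Pool.Agent.R29.OP.Data

/-!
# The enumeration of the facets at `w0`: finite check (MP_7b675e_co)
-/

set_option autoImplicit false

namespace Pool.Agent.R29.OP

/-- integer coordinates of `w0` -/
def w0Z (a : ℕ) : ℤ := if a = 0 then 2 else if a = 1 then 4 else if a = 2 then 1 else 2

def ptZ (i a : ℕ) : ℤ := sn i a * w0Z (pn i a)

/-- difference of the vertex `i` and the vertex `0` -/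
def dZ (i a : ℕ) : ℤ := ptZ i a - ptZ 0 a

structure V4 where
  x0 : ℤ
  x1 : ℤ
  x2 : ℤ
  x3 : ℤ
deriving DecidableEq

def vecZ (i : ℕ) : V4 := ⟨dZ i 0, dZ i 1, dZ i 2, dZ i 3⟩

def crossZ (x y z : V4) : V4 :=
  ⟨x.x1 * (y.x2 * z.x3 - y.x3 * z.x2) - x.x2 * (y.x1 * z.x3 - y.x3 * z.x1)
      + x.x3 * (y.x1 * z.x2 - y.x2 * z.x1),
   -(x.x0 * (y.x2 * z.x3 - y.x3 * z.x2) - x.x2 * (y.x0 * z.x3 - y.x3 * z.x0)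
      + x.x3 * (y.x0 * z.x2 - y.x2 * z.x0)),
   x.x0 * (y.x1 * z.x3 - y.x3 * z.x1) - x.x1 * (y.x0 * z.x3 - y.x3 * z.x0)
      + x.x3 * (y.x0 * z.x1 - y.x1 * z.x0),
   -(x.x0 * (y.x1 * z.x2 - y.x2 * z.x1) - x.x1 * (y.x0 * z.x2 - y.x2 * z.x0)
      + x.x2 * (y.x0 * z.x1 - y.x1 * z.x0))⟩

def dotZ (n v : V4) : ℤ := n.x0 * v.x0 + n.x1 * v.x1 + n.x2 * v.x2 + n.x3 * v.x3

/-- the list of the differences -/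
def dL : List V4 := [
  ⟨0, 0, 0, 0⟩,
  ⟨-3, -6, -3, 2⟩,
  ⟨-4, -6, -5, -3⟩,
  ⟨0, -3, -5, -4⟩,
  ⟨-1, -8, 1, 0⟩,
  ⟨2, -2, 0, -4⟩,
  ⟨0, -3, 1, 2⟩,
  ⟨2, -6, 1, -1⟩,
  ⟨-4, -2, -2, 2⟩,
  ⟨-4, -5, -3, -6⟩,
  ⟨-3, -6, 3, -4⟩,
  ⟨-3, -8, 1, 0⟩,
  ⟨-6, -2, -3, -3⟩,
  ⟨-4, -6, -5, -1⟩,
  ⟨-4, -8, -2, -4⟩,
  ⟨-6, -5, 1, -4⟩,
  ⟨-1, -2, -5, 0⟩,
  ⟨0, -8, -3, -1⟩,
  ⟨0, -2, 3, -3⟩,
  ⟨-6, -3, 1, -4⟩,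
  ⟨-1, -2, 1, -6⟩,
  ⟨-4, -3, -3, -6⟩,
  ⟨-1, -6, 3, -4⟩,
  ⟨2, -3, -3, 0⟩,
  ⟨2, -2, -2, -4⟩,
  ⟨0, -5, 1, 2⟩,
  ⟨0, -2, 3, -1⟩,
  ⟨-4, 0, 1, -3⟩,
  ⟨2, -5, -3, 0⟩,
  ⟨0, -6, -2, -6⟩,
  ⟨-4, -5, 3, 0⟩,
  ⟨-6, -6, 0, 0⟩,
  ⟨-4, 0, 1, -1⟩,
  ⟨-3, 0, -3, -4⟩,
  ⟨0, 0, -2, 0⟩,
  ⟨-3, -2, 1, -6⟩,
  ⟨-6, -6, -2, 0⟩,
  ⟨-6, -2, -3, -1⟩,
  ⟨-4, -8, 0, -4⟩,
  ⟨-4, -2, 0, 2⟩,
  ⟨0, -8, -3, -3⟩,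
  ⟨0, -6, 0, -6⟩,
  ⟨2, -6, 1, -3⟩,
  ⟨0, -5, -5, -4⟩,
  ⟨-1, -6, -3, 2⟩,
  ⟨-4, -3, 3, 0⟩,
  ⟨-1, 0, -3, -4⟩,
  ⟨-3, -2, -5, 0⟩]

theorem dL_check : (List.range 48).all (fun i => decide (dL.getD i ⟨0,0,0,0⟩ = vecZ i)) = true := by
  decide +kernel

/-- the list of the indices `m < 48` with `n · (p_m - p_0) = 0` -/
def zeroL (n : V4) : ℕ → List V4 → List ℕ
  | _, [] => []
  | m, v :: t => if dotZ n v = 0 then m :: zeroL n (m + 1) t else zeroL n (m + 1) t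

def chkN (n : V4) : Bool :=
  (n = ⟨0,0,0,0⟩) || ((dL.any fun v => 0 < dotZ n v) && (dL.any fun v => dotZ n v < 0)) ||
    facetL.contains (zeroL n 0 dL)

def chk3 (x y : V4) : List V4 → Bool
  | [] => true
  | z :: t => chkN (crossZ x y z) && chk3 x y t
def chk2 (x : V4) : List V4 → Bool
  | [] => true
  | y :: t => chk3 x y t && chk2 x t
def chk1 : List V4 → Bool
  | [] => true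
  | x :: t => chk2 x t && chk1 t

theorem chk_all : chk1 dL = true := by decide +kernel

end Pool.Agent.R29.OP
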