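import Pool.Agent.R29.OP.Stm

/-!
# The configuration at `w0` spans and is spherical (MP_7b675e_co)
-/

set_option autoImplicit false

open Set Metric

namespace Pool.Agent.R29.OP

def w0N (a : ℕ) : ℤ := if a = 0 then 2 else if a = 1 then 4 else if a = 2 then 1 else 2

theorem w0_apply (a : ℕ) (h : a < 4) : w0 ⟨a, h⟩ = (w0N a : ℝ) := by
  interval_cases a <;> simp [w0, w0N]

theorem conf_applyN (w : E 4) (i : Fin 48) (a : ℕ) (h : a < 4) :
    conf w i ⟨a, h⟩ = (sn i a : ℝ) * w ⟨pn i a, pn_lt _ _⟩ := by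
  interval_cases a <;> simp [conf]

theorem conf0_apply (i : Fin 48) (a : ℕ) (h : a < 4) :
    conf w0 i ⟨a, h⟩ = ((sn i a * w0N (pn i a) : ℤ) : ℝ) := by
  rw [conf_applyN, w0_apply _ (pn_lt _ _)]; push_cast; rfl

theorem inj_check : (List.range 48).all (fun i => (List.range 48).all fun j =>
    decide (i = j) || (List.range 4).any fun a =>
      decide (sn i a * w0N (pn i a) ≠ sn j a * w0N (pn j a))) = true := by decide +kernel

theorem perm_check : (List.range 48).all (fun i => (List.range 4).all fun a =>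
    (decide (sn i a * sn i a = 1)) && (List.range 4).all fun b =>
      decide (a = b) || decide (pn i a ≠ pn i b)) = true := by decide +kernel

theorem conf0_injective : Function.Injective (conf w0) := by
  intro i j hij
  have h := inj_check
  rw [List.all_eq_true] at h
  have h1 := h i (List.mem_range.2 i.2)
  rw [List.all_eq_true] at h1
  have h2 := h1 j (List.mem_range.2 j.2)
  rw [Bool.or_eq_true] at h2
  rcases h2 with h2 | h2
  · exact Fin.ext (of_decide_eq_true h2)
  · exfalso
    rw [List.any_eq_true] at h2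
    obtain ⟨a, ha, hne⟩ := h2
    have ha' : a < 4 := List.mem_range.1 ha
    have hne' := of_decide_eq_true hne
    apply hne'
    have := congrArg (fun v : E 4 => v ⟨a, ha'⟩) hij
    simp only at this
    rw [conf0_apply, conf0_apply] at this
    exact_mod_cast this

theorem perm_facts (i : Fin 48) (a : ℕ) (ha : a < 4) :
    sn i a * sn i a = 1 ∧ ∀ b, b < 4 → a ≠ b → pn i a ≠ pn i b := by
  have h := perm_check
  rw [List.all_eq_true] at h
  have h1 := h i (List.mem_range.2 i.2)
  rw [List.all_eq_true] at h1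
  have h2 := h1 a (List.mem_range.2 ha)
  rw [Bool.and_eq_true] at h2
  refine ⟨of_decide_eq_true h2.1, fun b hb hab => ?_⟩
  have h3 := h2.2
  rw [List.all_eq_true] at h3
  have h4 := h3 b (List.mem_range.2 hb)
  rw [Bool.or_eq_true] at h4
  rcases h4 with h4 | h4
  · exact absurd (of_decide_eq_true h4) hab
  · exact of_decide_eq_true h4

theorem conf_normE (w : E 4) (i : Fin 48) : ‖conf w i‖ = ‖w‖ := by
  rw [EuclideanSpace.norm_eq, EuclideanSpace.norm_eq]
  congr 1
  let σ : Fin 4 → Fin 4 := fun a => ⟨pn i a, pn_lt _ _⟩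
  have hσ : Function.Injective σ := by
    intro a b hab
    by_contra hne
    exact (perm_facts i a a.2).2 b b.2 (fun h => hne (Fin.ext h)) (congrArg Fin.val hab)
  have hb : Function.Bijective σ := Finite.injective_iff_bijective.1 hσ
  have h1 : ∀ a : Fin 4, ‖conf w i a‖ ^ 2 = ‖w (σ a)‖ ^ 2 := by
    intro a
    have := conf_applyN w i a a.2
    have hs := (perm_facts i a a.2).1
    have hs' : ((sn i a : ℤ) : ℝ) * (sn i a : ℝ) = 1 := by exact_mod_cast hs
    rw [show conf w i a = (sn i a : ℝ) * w (σ a) from this]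
    rw [Real.norm_eq_abs, Real.norm_eq_abs, sq_abs, sq_abs, mul_pow, sq ((sn i a : ℤ) : ℝ), hs', one_mul]
  rw [Finset.sum_congr rfl fun a _ => h1 a]
  exact Function.Bijective.sum_comp hb (fun a => ‖w a‖ ^ 2)

theorem diff_apply (i j : Fin 48) (a : ℕ) (h : a < 4) :
    (conf w0 i - conf w0 j) ⟨a, h⟩ =
      ((sn i a * w0N (pn i a) - sn j a * w0N (pn j a) : ℤ) : ℝ) := by
  rw [PiLp.sub_apply, conf0_apply, conf0_apply]; push_cast; rfl

theorem axis_check : (List.range 4).all (fun a =>
    let p := [(1, 44), (3, 43), (0, 34), (2, 13)].getD a (0, 0)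
    decide (p.1 < 48) && decide (p.2 < 48) &&
    (decide (sn p.1 a * w0N (pn p.1 a) - sn p.2 a * w0N (pn p.2 a) ≠ 0)) &&
    (List.range 4).all fun b => decide (b = a) ||
      decide (sn p.1 b * w0N (pn p.1 b) - sn p.2 b * w0N (pn p.2 b) = 0)) = true := by
  decide +kernel

theorem spans_conf0 : Spans (conf w0) := by
  intro c h hc
  have key : ∀ i j : Fin 48, c (conf w0 i - conf w0 j) = 0 := by
    intro i j
    rw [map_sub, hc, hc, sub_self]
  have he : ∀ a : Fin 4, c (EuclideanSpace.single a (1 : ℝ)) = 0 := by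
    intro a
    have h := axis_check
    rw [List.all_eq_true] at h
    have h1 := h a (List.mem_range.2 a.2)
    simp only [Bool.and_eq_true] at h1
    obtain ⟨⟨⟨h2, h3⟩, h4⟩, h5⟩ := h1
    have h2 := of_decide_eq_true h2
    have h3 := of_decide_eq_true h3
    have h4 := of_decide_eq_true h4
    rw [List.all_eq_true] at h5
    set p := [(1, 44), (3, 43), (0, 34), (2, 13)].getD a (0, 0) with hp
    have hk := key ⟨p.1, h2⟩ ⟨p.2, h3⟩
    have heq : conf w0 ⟨p.1, h2⟩ - conf w0 ⟨p.2, h3⟩ =
        ((sn p.1 a * w0N (pn p.1 a) - sn p.2 a * w0N (pn p.2 a) : ℤ) : ℝ) •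
          EuclideanSpace.single a (1 : ℝ) := by
      ext b
      rw [show b = ⟨(b : ℕ), b.2⟩ from rfl, diff_apply]
      rw [PiLp.smul_apply]
      by_cases hab : b = a
      · subst hab
        simp
      · have h6 := h5 b (List.mem_range.2 b.2)
        rw [Bool.or_eq_true] at h6
        rcases h6 with h6 | h6
        · exact absurd (Fin.ext (of_decide_eq_true h6)) hab
        · have h7 := of_decide_eq_true h6
          rw [show ((⟨p.1, h2⟩ : Fin 48) : ℕ) = p.1 from rfl,
            show ((⟨p.2, h3⟩ : Fin 48) : ℕ) = p.2 from rfl, h7]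
          simp [hab]
    rw [heq, map_smul, smul_eq_mul, mul_eq_zero] at hk
    rcases hk with hk | hk
    · exact absurd (by exact_mod_cast hk) h4
    · exact hk
  ext x
  have hx : x = ∑ a : Fin 4, x a • EuclideanSpace.single a (1 : ℝ) := by
    ext b
    simp [Finset.sum_apply, Pi.single_apply]
  rw [hx, map_sum]
  simp [he]

theorem spansStm : SpansStm := ⟨spans_conf0, conf0_injective, conf_normE⟩

end Pool.Agent.R29.OP
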