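import Pool.Agent.R29.OP.E1
import Pool.Agent.R29.OP.E2

/-!
# Facets at `w0` (MP_7b675e_co)
-/

set_option autoImplicit false

open Set Metric

namespace Pool.Agent.R29.OP

/-! ## From the loops to index triples -/

theorem chk3_get (x y : V4) : ∀ (L : List V4), chk3 x y L = true → ∀ z ∈ L,
    chkN (crossZ x y z) = true
  | [], _, z, hz => absurd hz List.not_mem_nil
  | a :: t, h, z, hz => by
    rw [chk3, Bool.and_eq_true] at h
    rcases List.mem_cons.1 hz with rfl | hz
    · exact h.1
    · exact chk3_get x y t h.2 z hz

theorem chk2_get (x : V4) : ∀ (L : List V4), chk2 x L = true → ∀ (j k : ℕ) (hk : k < L.length)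
    (hj : j < k), chkN (crossZ x (L[j]'(hj.trans hk)) L[k]) = true
  | [], _, j, k, hk, _ => absurd hk (Nat.not_lt_zero _)
  | a :: t, h, j, k, hk, hj => by
    rw [chk2, Bool.and_eq_true] at h
    cases k with
    | zero => exact absurd hj (Nat.not_lt_zero _)
    | succ k =>
      cases j with
      | zero => exact chk3_get x a t h.1 _ (List.getElem_mem _)
      | succ j => exact chk2_get x t h.2 j k (by simpa using hk) (by omega)

theorem chk1_get : ∀ (L : List V4), chk1 L = true → ∀ (i j k : ℕ) (hk : k < L.length)
    (hj : j < k) (hi : i < j),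
    chkN (crossZ (L[i]'((hi.trans hj).trans hk)) (L[j]'(hj.trans hk)) L[k]) = true
  | [], _, i, j, k, hk, _, _ => absurd hk (Nat.not_lt_zero _)
  | a :: t, h, i, j, k, hk, hj, hi => by
    rw [chk1, Bool.and_eq_true] at h
    cases k with
    | zero => exact absurd hj (Nat.not_lt_zero _)
    | succ k =>
      cases j with
      | zero => exact absurd hi (Nat.not_lt_zero _)
      | succ j =>
        cases i with
        | zero => exact chk2_get a t h.1 j k (by simpa using hk) (by omega)
        | succ i => exact chk1_get t h.2 i j k (by simpa using hk) (by omega) (by omega)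

theorem dL_length : dL.length = 48 := by decide +kernel

theorem dL_get (i : ℕ) (hi : i < 48) : dL[i]'(by rw [dL_length]; exact hi) = vecZ i := by
  have h := dL_check
  rw [List.all_eq_true] at h
  have h1 := of_decide_eq_true (h i (List.mem_range.2 hi))
  rw [← h1, List.getD_eq_getElem _ _ (by rw [dL_length]; exact hi)]

theorem chk_idx (i j k : ℕ) (hij : i < j) (hjk : j < k) (hk : k < 48) :
    chkN (crossZ (vecZ i) (vecZ j) (vecZ k)) = true := by
  have := chk1_get dL chk_all i j k (by rw [dL_length]; exact hk) hjk hij
  rwa [dL_get i (by omega), dL_get j (by omega), dL_get k hk] at this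

theorem mem_zeroL (n : V4) : ∀ (L : List V4) (m x : ℕ), x ∈ zeroL n m L ↔
    ∃ h : x - m < L.length, m ≤ x ∧ dotZ n (L[x - m]) = 0
  | [], m, x => by simp [zeroL]
  | v :: t, m, x => by
    have ih := mem_zeroL n t (m + 1) x
    have key : (∃ h : x - m < (v :: t).length, m ≤ x ∧ dotZ n ((v :: t)[x - m]) = 0) ↔
        (x = m ∧ dotZ n v = 0) ∨
        ∃ h : x - (m + 1) < t.length, m + 1 ≤ x ∧ dotZ n (t[x - (m + 1)]) = 0 := by
      constructor
      · rintro ⟨h, hm, h0⟩
        rcases Nat.eq_or_lt_of_le hm with rfl | hlt
        · left; simpa using h0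
        · right
          have e : x - m = (x - (m + 1)) + 1 := by omega
          refine ⟨by simp only [List.length_cons] at h; omega, hlt, ?_⟩
          simp only [e, List.getElem_cons_succ] at h0
          exact h0
      · rintro (⟨rfl, h0⟩ | ⟨h, hm, h0⟩)
        · exact ⟨by simp, le_rfl, by simpa using h0⟩
        · have e : x - m = (x - (m + 1)) + 1 := by omega
          refine ⟨by simp only [List.length_cons]; omega, by omega, ?_⟩
          simp only [e, List.getElem_cons_succ]
          exact h0
    rw [key, zeroL]
    split_ifs with hv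
    · rw [List.mem_cons, ih]
      simp [hv]
    · rw [ih]
      simp [hv]

theorem mem_zeroL0 (n : V4) (x : ℕ) (hx : x < 48) :
    x ∈ zeroL n 0 dL ↔ dotZ n (vecZ x) = 0 := by
  rw [mem_zeroL]
  constructor
  · rintro ⟨h, -, h0⟩
    simp only [Nat.sub_zero] at h0
    rwa [dL_get x hx] at h0
  · intro h0
    refine ⟨by rw [dL_length]; omega, Nat.zero_le _, ?_⟩
    simp only [Nat.sub_zero]
    rwa [dL_get x hx]

end Pool.Agent.R29.OP
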