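import Pool.Agent.R29.OP.E3

/-!
# Facets at `w0`: linear algebra (MP_7b675e_co)
-/

set_option autoImplicit false

open Set Metric Module

namespace Pool.Agent.R29.OP

/-- differences -/
noncomputable def q (i : Fin 48) : E 4 := conf w0 i - conf w0 0

theorem w0Z_eq (a : ℕ) : w0Z a = w0N a := rfl

theorem q_apply (i : Fin 48) (a : ℕ) (h : a < 4) : q i ⟨a, h⟩ = ((dZ i a : ℤ) : ℝ) := by
  rw [q, diff_apply]
  rfl

noncomputable def vecR (n : V4) : E 4 := !₂[(n.x0 : ℝ), (n.x1 : ℝ), (n.x2 : ℝ), (n.x3 : ℝ)]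

theorem q_eq (i : Fin 48) : q i = vecR (vecZ i) := by
  ext a
  rw [show a = ⟨(a : ℕ), a.2⟩ from rfl, q_apply]
  obtain ⟨a, ha⟩ := a
  interval_cases a <;> simp [vecR, vecZ]

theorem inner_vecR (n v : V4) : inner ℝ (vecR n) (vecR v) = ((dotZ n v : ℤ) : ℝ) := by
  simp only [vecR, dotZ, PiLp.inner_apply, Fin.sum_univ_four]
  simp
  ring

theorem cross_x (x y z : V4) : dotZ (crossZ x y z) x = 0 := by
  simp only [dotZ, crossZ]; ring

theorem cross_y (x y z : V4) : dotZ (crossZ x y z) y = 0 := by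
  simp only [dotZ, crossZ]; ring

theorem cross_z (x y z : V4) : dotZ (crossZ x y z) z = 0 := by
  simp only [dotZ, crossZ]; ring

theorem det_cross (c : E 4) (x y z : V4) :
    Matrix.det (Matrix.of ![(fun a => c a : Fin 4 → ℝ), fun a => vecR x a, fun a => vecR y a,
      fun a => vecR z a]) = inner ℝ (vecR (crossZ x y z)) c := by
  simp only [vecR, crossZ, PiLp.inner_apply, Fin.sum_univ_four]
  simp [Matrix.det_succ_row_zero, Fin.sum_univ_succ, Fin.succAbove]
  ring

end Pool.Agent.R29.OP
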