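import Pool.Agent.R29.OP.E4

/-!
# Facets at `w0`: the classification (MP_7b675e_co)
-/

set_option autoImplicit false

open Set Metric Module

namespace Pool.Agent.R29.OP

theorem q_zero : q 0 = 0 := sub_self _

/-- The span of the differences along a facet through `0` has dimension at least three. -/
theorem finrank_ge (h3 : FacetUniqueStm) (F : Set (Fin 48)) (hF : IsFacet (conf w0) F)
    (h0 : (0 : Fin 48) ∈ F) (cv : E 4) (hcF : ∀ i ∈ F, inner ℝ cv (q i) = 0)
    (hcN : ∀ i, i ∉ F → inner ℝ cv (q i) < 0) :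
    3 ≤ finrank ℝ (Submodule.span ℝ (q '' F)) := by
  by_contra hlt
  push Not at hlt
  set W := Submodule.span ℝ (q '' F) with hW
  have hcv : cv ∈ Wᗮ := by
    rw [Submodule.mem_orthogonal']
    intro u hu
    refine Submodule.span_induction (p := fun u _ => inner ℝ cv u = 0) ?_ ?_ ?_ ?_ hu
    · rintro _ ⟨i, hi, rfl⟩
      exact hcF i hi
    · exact inner_zero_right _
    · intro x y _ _ hx hy
      rw [inner_add_right, hx, hy, add_zero]
    · intro a x _ hx
      rw [inner_smul_right, hx, mul_zero]
  have hsum := Submodule.finrank_add_finrank_orthogonal W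
  rw [finrank_euclideanSpace_fin] at hsum
  have hlt2 : Submodule.span ℝ {cv} < Wᗮ := by
    refine lt_of_le_of_ne ?_ ?_
    · rw [Submodule.span_singleton_le_iff_mem]; exact hcv
    · intro heq
      have h1 : finrank ℝ (Submodule.span ℝ {cv}) ≤ 1 := by
        simpa using finrank_span_le_card (R := ℝ) ({cv} : Set (E 4))
      rw [heq] at h1
      omega
  obtain ⟨c', hc', hc'n⟩ := SetLike.exists_of_lt hlt2
  rw [Submodule.mem_orthogonal'] at hc'
  obtain ⟨s, hs⟩ := h3 4 (Fin 48) (conf w0) F hF (innerSL ℝ c') (inner ℝ c' (conf w0 0))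
    (fun i hi => by
      have := hc' (q i) (Submodule.subset_span ⟨i, hi, rfl⟩)
      rw [q, inner_sub_right, sub_eq_zero] at this
      rw [innerSL_apply_apply]
      exact this)
    (innerSL ℝ cv) (inner ℝ cv (conf w0 0))
    (fun i hi => by
      have := hcF i hi
      rw [q, inner_sub_right, sub_eq_zero] at this
      rw [innerSL_apply_apply]
      exact this)
    (fun i hi => by
      have := hcN i hi
      rw [q, inner_sub_right, sub_neg] at this
      rw [innerSL_apply_apply]
      exact this)
  have hsp := spans_conf0 (innerSL ℝ (c' - s • cv))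
    (inner ℝ c' (conf w0 0) - s * inner ℝ cv (conf w0 0)) (fun i => by
      have h := hs i
      rw [innerSL_apply_apply, innerSL_apply_apply] at h
      rw [innerSL_apply_apply, inner_sub_left, inner_smul_left]
      simp only [conj_trivial]
      linarith)
  have hz : c' - s • cv = 0 := by
    have h1 : innerSL ℝ (c' - s • cv) (c' - s • cv) = 0 := by rw [hsp]; rfl
    rw [innerSL_apply_apply] at h1
    exact inner_self_eq_zero.1 h1
  apply hc'n
  rw [Submodule.mem_span_singleton]
  exact ⟨s, (sub_eq_zero.1 hz).symm⟩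

/-- Three indices of `F` in increasing order with linearly independent differences. -/
theorem exists_triple (F : Set (Fin 48)) (h : 3 ≤ finrank ℝ (Submodule.span ℝ (q '' F))) :
    ∃ f : Fin 3 ↪o Fin 48, (∀ m, f m ∈ F) ∧ LinearIndependent ℝ (q ∘ f) := by
  classical
  obtain ⟨κ, a, ha, hsp, hli⟩ := exists_linearIndependent' ℝ (fun i : F => q i)
  have hrange : range (fun i : F => q i) = q '' F := by
    ext x; simp [Set.mem_image]
  rw [hrange] at hsp
  have : Finite κ := Finite.of_injective a ha
  have := Fintype.ofFinite κ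
  have hcard : finrank ℝ (Submodule.span ℝ (q '' F)) = Fintype.card κ := by
    rw [← hsp]
    exact finrank_span_eq_card hli
  have h3 : 3 ≤ (Finset.univ : Finset κ).card := by rw [Finset.card_univ, ← hcard]; exact h
  obtain ⟨t, -, ht⟩ := Finset.exists_subset_card_eq h3
  let e0 : κ → Fin 48 := fun x => (a x : Fin 48)
  have he0 : Function.Injective e0 := fun x y hxy => ha (Subtype.ext hxy)
  let s : Finset (Fin 48) := t.image e0
  have hs : s.card = 3 := by rw [Finset.card_image_of_injective _ he0, ht]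
  let f := s.orderEmbOfFin hs
  have hf : ∀ m, ∃ x, e0 x = f m := by
    intro m
    have := Finset.orderEmbOfFin_mem s hs m
    obtain ⟨x, -, hx⟩ := Finset.mem_image.1 this
    exact ⟨x, hx⟩
  choose g hg using hf
  refine ⟨f, fun m => ?_, ?_⟩
  · rw [← hg m]
    exact (a (g m)).2
  · have hgi : Function.Injective g := by
      intro m m' hmm
      have : f m = f m' := by rw [← hg m, ← hg m', hmm]
      exact f.injective this
    have := hli.comp g hgi
    have e : q ∘ f = ((fun i : F => q i) ∘ a) ∘ g := by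
      funext m
      show q (f m) = q (a (g m))
      rw [← hg m]
    rw [e]
    exact this

theorem facetsStm (h3 : FacetUniqueStm) : FacetsStm := by
  intro F hF h0
  obtain ⟨c, h, hcF0, hcN0⟩ := hF.1
  set cv : E 4 := (InnerProductSpace.toDual ℝ (E 4)).symm c with hcvdef
  have hcv : ∀ x, inner ℝ cv x = c x := fun x => InnerProductSpace.toDual_symm_apply
  have hcF : ∀ i ∈ F, inner ℝ cv (q i) = 0 := by
    intro i hi
    rw [hcv, q, map_sub, hcF0 i hi, hcF0 0 h0, sub_self]
  have hcN : ∀ i, i ∉ F → inner ℝ cv (q i) < 0 := by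
    intro i hi
    rw [hcv, q, map_sub, hcF0 0 h0, sub_neg]
    exact hcN0 i hi
  obtain ⟨i₁, hi₁⟩ : ∃ i, i ∉ F := by
    by_contra hall
    push Not at hall
    exact hF.2.1 (eq_univ_of_forall hall)
  have hcv0 : cv ≠ 0 := by
    intro h0'
    have := hcN i₁ hi₁
    rw [h0', inner_zero_left] at this
    exact lt_irrefl _ this
  obtain ⟨f, hfF, hli⟩ := exists_triple F (finrank_ge h3 F hF h0 cv hcF hcN)
  have h01 : (f 0 : ℕ) < f 1 := f.strictMono (by decide)
  have h12 : (f 1 : ℕ) < f 2 := f.strictMono (by decide)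
  set x := vecZ (f 0)
  set y := vecZ (f 1)
  set z := vecZ (f 2)
  have hchk := chk_idx (f 0) (f 1) (f 2) h01 h12 (f 2).2
  set n := crossZ x y z with hn
  -- the three vectors
  have hx : q (f 0) = vecR x := q_eq _
  have hy : q (f 1) = vecR y := q_eq _
  have hz : q (f 2) = vecR z := q_eq _
  -- the orthogonal complement of the span is one dimensional
  set W := Submodule.span ℝ (range (q ∘ f)) with hW
  have hWr : finrank ℝ W = 3 := by
    rw [hW, finrank_span_eq_card hli, Fintype.card_fin]
  have hWo : finrank ℝ Wᗮ = 1 := by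
    have := Submodule.finrank_add_finrank_orthogonal W
    rw [finrank_euclideanSpace_fin] at this
    omega
  have memW : ∀ v : E 4, (∀ m, inner ℝ v (q (f m)) = 0) → v ∈ Wᗮ := by
    intro v hv
    rw [Submodule.mem_orthogonal']
    intro u hu
    refine Submodule.span_induction (p := fun u _ => inner ℝ v u = 0) ?_ ?_ ?_ ?_ hu
    · rintro _ ⟨m, rfl⟩
      exact hv m
    · exact inner_zero_right _
    · intro a b _ _ ha hb
      rw [inner_add_right, ha, hb, add_zero]
    · intro a b _ hb
      rw [inner_smul_right, hb, mul_zero]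
  have hcW : cv ∈ Wᗮ := memW cv fun m => hcF _ (hfF m)
  have hnW : vecR n ∈ Wᗮ := by
    refine memW _ fun m => ?_
    fin_cases m
    · show inner ℝ (vecR n) (q (f 0)) = 0
      rw [hx, inner_vecR, hn, cross_x, Int.cast_zero]
    · show inner ℝ (vecR n) (q (f 1)) = 0
      rw [hy, inner_vecR, hn, cross_y, Int.cast_zero]
    · show inner ℝ (vecR n) (q (f 2)) = 0
      rw [hz, inner_vecR, hn, cross_z, Int.cast_zero]
  obtain ⟨μ, hμ⟩ : ∃ μ : ℝ, μ • cv = vecR n := by
    have h1 := (finrank_eq_one_iff_of_nonzero' (⟨cv, hcW⟩ : Wᗮ)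
      (fun hh => hcv0 (congrArg Subtype.val hh))).1 hWo ⟨vecR n, hnW⟩
    obtain ⟨μ, hμ⟩ := h1
    exact ⟨μ, congrArg Subtype.val hμ⟩
  -- the cross product is nonzero
  have hne : inner ℝ (vecR n) cv ≠ 0 := by
    rw [hn, ← det_cross]
    have hli4 : LinearIndependent ℝ (Fin.cons cv (q ∘ f) : Fin 4 → E 4) := by
      rw [linearIndependent_finCons]
      refine ⟨hli, fun hmem => ?_⟩
      have h1 : inner ℝ cv cv = 0 := (Submodule.mem_orthogonal' _ _).1 hcW cv hmem
      exact hcv0 (inner_self_eq_zero.1 h1)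
    have hli5 := hli4.map' (WithLp.linearEquiv 2 ℝ (Fin 4 → ℝ)).toLinearMap
      (LinearMap.ker_eq_bot.2 (WithLp.linearEquiv 2 ℝ (Fin 4 → ℝ)).injective)
    have hrows : (Matrix.of ![(fun a => cv a : Fin 4 → ℝ), fun a => vecR x a, fun a => vecR y a,
        fun a => vecR z a]).row =
        (WithLp.linearEquiv 2 ℝ (Fin 4 → ℝ)).toLinearMap ∘ (Fin.cons cv (q ∘ f) : Fin 4 → E 4) := by
      funext r
      fin_cases r
      · rfl
      · show (fun a => vecR x a) = _
        rw [← hx]; rfl
      · show (fun a => vecR y a) = _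
        rw [← hy]; rfl
      · show (fun a => vecR z a) = _
        rw [← hz]; rfl
    rw [← hrows] at hli5
    have hu := Matrix.linearIndependent_rows_iff_isUnit.1 hli5
    exact ((Matrix.isUnit_iff_isUnit_det _).1 hu).ne_zero
  have hμ0 : μ ≠ 0 := by
    rintro rfl
    rw [zero_smul] at hμ
    rw [← hμ, inner_zero_left] at hne
    exact hne rfl
  have hval : ∀ m : Fin 48, ((dotZ n (vecZ m) : ℤ) : ℝ) = μ * inner ℝ cv (q m) := by
    intro m
    rw [← inner_vecR, ← q_eq, ← hμ, inner_smul_left]
    simp
  -- the finite check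
  rw [chkN, Bool.or_eq_true, Bool.or_eq_true] at hchk
  rcases hchk with (hchk | hchk) | hchk
  · exfalso
    have hn0 := of_decide_eq_true hchk
    apply hne
    rw [hn0]
    have : vecR (⟨0, 0, 0, 0⟩ : V4) = 0 := by
      ext a
      fin_cases a <;> simp [vecR]
    rw [this, inner_zero_left]
  · exfalso
    rw [Bool.and_eq_true, List.any_eq_true, List.any_eq_true] at hchk
    obtain ⟨⟨v, hv, hpos⟩, ⟨v', hv', hneg⟩⟩ := hchk
    have hpos := of_decide_eq_true hpos
    have hneg := of_decide_eq_true hneg
    have hget : ∀ v ∈ dL, ∃ m : Fin 48, v = vecZ m := by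
      intro v hv
      obtain ⟨i, hi, rfl⟩ := List.mem_iff_getElem.1 hv
      rw [dL_length] at hi
      exact ⟨⟨i, hi⟩, dL_get i hi⟩
    obtain ⟨m, rfl⟩ := hget v hv
    obtain ⟨m', rfl⟩ := hget v' hv'
    have h1 : (0 : ℝ) < μ * inner ℝ cv (q m) := by rw [← hval]; exact_mod_cast hpos
    have h2 : μ * inner ℝ cv (q m') < 0 := by rw [← hval]; exact_mod_cast hneg
    have h3' : ∀ m, inner ℝ cv (q m) ≤ 0 := by
      intro m
      by_cases hm : m ∈ F
      · exact (hcF m hm).le
      · exact (hcN m hm).le
    rcases lt_or_gt_of_ne hμ0 with hneg' | hpos'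
    · have := mul_nonneg_of_nonpos_of_nonpos hneg'.le (h3' m')
      linarith
    · have := mul_nonpos_of_nonneg_of_nonpos hpos'.le (h3' m)
      linarith
  · refine ⟨zeroL n 0 dL, List.contains_iff_mem.1 hchk, ?_⟩
    ext m
    show m ∈ F ↔ (m : ℕ) ∈ zeroL n 0 dL
    rw [mem_zeroL0 n m m.2]
    constructor
    · intro hm
      have := hval m
      rw [hcF m hm, mul_zero] at this
      exact_mod_cast this
    · intro hm
      by_contra hmF
      have := hval m
      rw [hm, Int.cast_zero, eq_comm, mul_eq_zero] at this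
      rcases this with h | h
      · exact hμ0 h
      · exact (hcN m hmF).ne h

end Pool.Agent.R29.OP
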