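import Pool.Agent.R29.OP.Stm

/-!
# Piece F: the listed facets near `w0` (MP_7b675e_co)
-/

set_option autoImplicit false

open Set Metric Filter Topology

namespace Pool.Agent.R29.OP.F

section ring

variable {R : Type*} [CommRing R]

/-- a `3 × 3` minor -/
def m3 (u v z : Fin 4 → R) (a b d : Fin 4) : R :=
  u a * (v b * z d - v d * z b) - u b * (v a * z d - v d * z a) + u d * (v a * z b - v b * z a)

/-- the generalised cross product -/
def crs (u v z : Fin 4 → R) : Fin 4 → R :=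
  ![m3 u v z 1 2 3, - m3 u v z 0 2 3, m3 u v z 0 1 3, - m3 u v z 0 1 2]

/-- the dot product -/
def dt (n x : Fin 4 → R) : R := n 0 * x 0 + n 1 * x 1 + n 2 * x 2 + n 3 * x 3

/-- the coordinates of the configuration -/
def cv (w : Fin 4 → R) (i : Fin 48) (a : Fin 4) : R :=
  ((sn i a : ℤ) : R) * w ⟨pn i a, pn_lt _ _⟩

/-- differences with the base vertex -/
def Dv (w : Fin 4 → R) (i : Fin 48) (a : Fin 4) : R := cv w i a - cv w 0 a

/-- the normal vector -/
def nv (w : Fin 4 → R) (t : Fin 48 × Fin 48 × Fin 48) : Fin 4 → R :=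
  crs (Dv w t.1) (Dv w t.2.1) (Dv w t.2.2)

/-- the value of the functional -/
def val (w : Fin 4 → R) (t : Fin 48 × Fin 48 × Fin 48) (m : Fin 48) : R := dt (nv w t) (Dv w m)

theorem val_map {S : Type*} [CommRing S] (f : R →+* S) (w : Fin 4 → R)
    (t : Fin 48 × Fin 48 × Fin 48) (m : Fin 48) : f (val w t m) = val (fun a => f (w a)) t m := by
  simp [val, nv, dt, crs, m3, Dv, cv]

theorem cv_eq (w : Fin 4 → R) (i : Fin 48) (s : Fin 4 → ℤ) (p : Fin 4 → Fin 4)
    (hs : ∀ a : Fin 4, sn i a = s a) (hp : ∀ a : Fin 4, (⟨pn i a, pn_lt _ _⟩ : Fin 4) = p a) :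
    cv w i = fun a => ((s a : ℤ) : R) * w (p a) := by
  funext a
  rw [cv, hs, hp]

theorem orth {K : Type*} [Field K] (y x u v z : Fin 4 → K) (hd : dt (crs u v z) x ≠ 0)
    (hx : dt y x = 0) (hu : dt y u = 0) (hv : dt y v = 0) (hz : dt y z = 0) : y = 0 := by
  have hM : (Matrix.of ![x, u, v, z]).det ≠ 0 := by
    have h : (Matrix.of ![x, u, v, z]).det = dt (crs u v z) x := by
      simp only [Matrix.det_succ_row_zero, Fin.sum_univ_succ]
      simp [dt, crs, m3, Fin.succAbove, Matrix.submatrix]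
      ring
    rw [h]
    exact hd
  apply Matrix.eq_zero_of_mulVec_eq_zero hM
  simp only [dt] at hx hu hv hz
  funext a
  fin_cases a
  · simp [Matrix.mulVec, dotProduct, Fin.sum_univ_succ]
    linear_combination hx
  · simp [Matrix.mulVec, dotProduct, Fin.sum_univ_succ]
    linear_combination hu
  · simp [Matrix.mulVec, dotProduct, Fin.sum_univ_succ]
    linear_combination hv
  · simp [Matrix.mulVec, dotProduct, Fin.sum_univ_succ]
    linear_combination hz

theorem c0 (w : Fin 4 → R) : cv w 0 = ![w 0, w 1, w 2, w 3] := by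
  rw [cv_eq w 0 ![1, 1, 1, 1] ![0, 1, 2, 3] (by decide +kernel) (by decide +kernel)]
  funext a; fin_cases a <;> simp

theorem c5 (w : Fin 4 → R) : cv w 5 = ![w 1, w 0, w 2, -w 3] := by
  rw [cv_eq w 5 ![1, 1, 1, -1] ![1, 0, 2, 3] (by decide +kernel) (by decide +kernel)]
  funext a; fin_cases a <;> simp

theorem c6 (w : Fin 4 → R) : cv w 6 = ![w 0, w 2, w 3, w 1] := by
  rw [cv_eq w 6 ![1, 1, 1, 1] ![0, 2, 3, 1] (by decide +kernel) (by decide +kernel)]
  funext a; fin_cases a <;> simp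

theorem c7 (w : Fin 4 → R) : cv w 7 = ![w 1, -w 3, w 0, w 2] := by
  rw [cv_eq w 7 ![1, -1, 1, 1] ![1, 3, 0, 2] (by decide +kernel) (by decide +kernel)]
  funext a; fin_cases a <;> simp

theorem c8 (w : Fin 4 → R) : cv w 8 = ![-w 3, w 0, -w 2, w 1] := by
  rw [cv_eq w 8 ![-1, 1, -1, 1] ![3, 0, 2, 1] (by decide +kernel) (by decide +kernel)]
  funext a; fin_cases a <;> simp

theorem c18 (w : Fin 4 → R) : cv w 18 = ![w 3, w 0, w 1, -w 2] := by
  rw [cv_eq w 18 ![1, 1, 1, -1] ![3, 0, 1, 2] (by decide +kernel) (by decide +kernel)]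
  funext a; fin_cases a <;> simp

theorem c20 (w : Fin 4 → R) : cv w 20 = ![w 2, w 0, w 3, -w 1] := by
  rw [cv_eq w 20 ![1, 1, 1, -1] ![2, 0, 3, 1] (by decide +kernel) (by decide +kernel)]
  funext a; fin_cases a <;> simp

theorem c23 (w : Fin 4 → R) : cv w 23 = ![w 1, w 2, -w 3, w 0] := by
  rw [cv_eq w 23 ![1, 1, -1, 1] ![1, 2, 3, 0] (by decide +kernel) (by decide +kernel)]
  funext a; fin_cases a <;> simp

theorem c24 (w : Fin 4 → R) : cv w 24 = ![w 1, w 3, -w 2, -w 0] := by
  rw [cv_eq w 24 ![1, 1, -1, -1] ![1, 3, 2, 0] (by decide +kernel) (by decide +kernel)]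
  funext a; fin_cases a <;> simp

theorem c26 (w : Fin 4 → R) : cv w 26 = ![w 0, w 3, w 1, w 2] := by
  rw [cv_eq w 26 ![1, 1, 1, 1] ![0, 3, 1, 2] (by decide +kernel) (by decide +kernel)]
  funext a; fin_cases a <;> simp

theorem c27 (w : Fin 4 → R) : cv w 27 = ![-w 3, w 1, w 0, -w 2] := by
  rw [cv_eq w 27 ![-1, 1, 1, -1] ![3, 1, 0, 2] (by decide +kernel) (by decide +kernel)]
  funext a; fin_cases a <;> simp

theorem c32 (w : Fin 4 → R) : cv w 32 = ![-w 0, w 1, w 3, w 2] := by
  rw [cv_eq w 32 ![-1, 1, 1, 1] ![0, 1, 3, 2] (by decide +kernel) (by decide +kernel)]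
  funext a; fin_cases a <;> simp

theorem c33 (w : Fin 4 → R) : cv w 33 = ![-w 2, w 1, -w 0, -w 3] := by
  rw [cv_eq w 33 ![-1, 1, -1, -1] ![2, 1, 0, 3] (by decide +kernel) (by decide +kernel)]
  funext a; fin_cases a <;> simp

theorem c34 (w : Fin 4 → R) : cv w 34 = ![w 3, w 1, -w 2, w 0] := by
  rw [cv_eq w 34 ![1, 1, -1, 1] ![3, 1, 2, 0] (by decide +kernel) (by decide +kernel)]
  funext a; fin_cases a <;> simp

theorem c39 (w : Fin 4 → R) : cv w 39 = ![-w 0, w 3, w 2, w 1] := by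
  rw [cv_eq w 39 ![-1, 1, 1, 1] ![0, 3, 2, 1] (by decide +kernel) (by decide +kernel)]
  funext a; fin_cases a <;> simp

theorem c45 (w : Fin 4 → R) : cv w 45 = ![-w 0, w 2, w 1, w 3] := by
  rw [cv_eq w 45 ![-1, 1, 1, 1] ![0, 2, 1, 3] (by decide +kernel) (by decide +kernel)]
  funext a; fin_cases a <;> simp

theorem c46 (w : Fin 4 → R) : cv w 46 = ![w 2, w 1, -w 3, -w 0] := by
  rw [cv_eq w 46 ![1, 1, -1, -1] ![2, 1, 3, 0] (by decide +kernel) (by decide +kernel)]
  funext a; fin_cases a <;> simp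

end ring

/-- the base point over the integers -/
def w0z : Fin 4 → ℤ := ![2, 4, 1, 2]

theorem val_w0 (t : Fin 48 × Fin 48 × Fin 48) (m : Fin 48) :
    val (fun a => w0 a) t m = ((val w0z t m : ℤ) : ℝ) := by
  have h := val_map (Int.castRingHom ℝ) w0z t m
  rw [eq_intCast] at h
  rw [h]
  congr 1
  funext a
  fin_cases a <;> simp [w0z, w0]

theorem conf_apply (w : E 4) (i : Fin 48) (a : Fin 4) : conf w i a = cv (fun b => w b) i a := by
  fin_cases a <;> rfl

/-- the functional with the given coefficients -/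
noncomputable def fl (n : Fin 4 → ℝ) : E 4 →L[ℝ] ℝ :=
  n 0 • EuclideanSpace.proj 0 + n 1 • EuclideanSpace.proj 1 + n 2 • EuclideanSpace.proj 2 +
    n 3 • EuclideanSpace.proj 3

theorem fl_apply (n : Fin 4 → ℝ) (x : E 4) : fl n x = dt n (fun a => x a) := by
  simp [fl, dt]

theorem mem_face (w : E 4) (t : Fin 48 × Fin 48 × Fin 48) (S : Set (Fin 48))
    (h1 : ∀ i ∈ S, val (fun a => w a) t i = 0) (h2 : ∀ i, i ∉ S → val (fun a => w a) t i < 0) :
    S ∈ FaceSet (conf w) := by
  have key : ∀ i, fl (nv (fun a => w a) t) (conf w i) =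
      fl (nv (fun a => w a) t) (conf w 0) + val (fun a => w a) t i := by
    intro i
    rw [fl_apply, fl_apply]
    simp only [conf_apply, val, dt, Dv]
    ring
  refine ⟨fl (nv (fun a => w a) t), fl (nv (fun a => w a) t) (conf w 0), ?_, ?_⟩
  · intro i hi
    rw [key i, h1 i hi, add_zero]
  · intro i hi
    rw [key i]
    have := h2 i hi
    linarith

theorem val_continuous (t : Fin 48 × Fin 48 × Fin 48) (m : Fin 48) :
    Continuous fun w : E 4 => val (fun a => w a) t m := by
  simp only [val, nv, dt, crs, m3, Dv, cv]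
  simp only [Matrix.cons_val]
  fun_prop

theorem near_of (l : List ℕ) (t : Fin 48 × Fin 48 × Fin 48) (P : E 4 → Prop)
    (h1 : ∀ w : E 4, P w → ∀ i : Fin 48, (i : ℕ) ∈ l → val (fun a => w a) t i = 0)
    (h2 : ∀ m : Fin 48, (m : ℕ) ∉ l → val w0z t m < 0) :
    ∀ᶠ w in 𝓝 w0, P w → fset l ∈ FaceSet (conf w) := by
  have h3 : ∀ m : Fin 48, ∀ᶠ w : E 4 in 𝓝 w0, (m : ℕ) ∉ l → val (fun a => w a) t m < 0 := by
    intro m
    by_cases hm : (m : ℕ) ∈ l
    · exact Eventually.of_forall fun w h => absurd hm h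
    · have h4 : val (fun a => w0 a) t m < 0 := by
        rw [val_w0]
        exact_mod_cast h2 m hm
      have h5 := (val_continuous t m).continuousAt.eventually_lt (x₀ := w0)
        (continuousAt_const (y := (0 : ℝ))) h4
      filter_upwards [h5] with w hw _ using hw
  have h6 := eventually_all.2 h3
  filter_upwards [h6] with w hw hP
  exact mem_face w t _ (fun i hi => h1 w hP i hi) fun i hi => hw i hi

/-- the quadratic factor -/
noncomputable def qf (w : E 4) : ℝ := 2 * w 2 ^ 2 - w 2 * (w 0 + w 3) + w 3 * (w 0 - w 3)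

theorem off_of (l : List ℕ) (t : Fin 48 × Fin 48 × Fin 48) (m : Fin 48) (s : ℝ) (hs : s ≠ 0)
    (hl : (0 : ℕ) ∈ l ∧ (t.1 : ℕ) ∈ l ∧ (t.2.1 : ℕ) ∈ l ∧ (t.2.2 : ℕ) ∈ l ∧ (m : ℕ) ∈ l)
    (h1 : (1 : ℕ) ∉ l)
    (hv : ∀ w : E 4, val (fun a => w a) t m =
      s * ((w 0 - w 3) * (w 0 + w 3 - w 1) * qf w)) :
    ∀ᶠ w in 𝓝 w0, w ∉ Z → fset l ∉ FaceSet (conf w) := by
  have hq : Continuous qf := by
    unfold qf
    fun_prop
  have hq0 : qf w0 ≠ 0 := by
    simp [qf, w0]
  filter_upwards [hq.continuousAt.eventually_ne hq0] with w hw hZ hF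
  obtain ⟨c, h, ha, hb⟩ := hF
  simp only [Z, mem_ofPred_eq, not_or] at hZ
  have hne : val (fun a => w a) t m ≠ 0 := by
    rw [hv]
    refine mul_ne_zero hs (mul_ne_zero (mul_ne_zero (sub_ne_zero.2 hZ.1) ?_) hw)
    exact sub_ne_zero.2 fun hh => hZ.2 hh.symm
  set y : Fin 4 → ℝ := fun a => c (EuclideanSpace.single a 1) with hy
  have hc : ∀ x : E 4, c x = dt y (fun a => x a) := by
    intro x
    have hx : x = x 0 • EuclideanSpace.single (0 : Fin 4) (1 : ℝ) +
        x 1 • EuclideanSpace.single (1 : Fin 4) (1 : ℝ) +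
        x 2 • EuclideanSpace.single (2 : Fin 4) (1 : ℝ) +
        x 3 • EuclideanSpace.single (3 : Fin 4) (1 : ℝ) := by
      ext a
      fin_cases a <;> simp
    conv_lhs => rw [hx]
    simp only [map_add, map_smul, smul_eq_mul, dt, hy]
    ring
  have h0 : c (conf w 0) = h := ha 0 hl.1
  have ho : ∀ i : Fin 48, (i : ℕ) ∈ l → dt y (Dv (fun a => w a) i) = 0 := by
    intro i hi
    have h2 := ha i hi
    rw [hc] at h2 h0
    simp only [conf_apply, dt] at h2 h0
    simp only [dt, Dv]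
    linarith
  have hy0 := orth y _ _ _ _ hne (ho m hl.2.2.2.2) (ho _ hl.2.1) (ho _ hl.2.2.1) (ho _ hl.2.2.2.1)
  have h3 := hb 1 h1
  rw [← h0, hc, hc, hy0] at h3
  simp [dt] at h3

theorem near0 : ∀ᶠ w in 𝓝 w0, (fun _ => True) w → fset [0, 5, 18, 26] ∈ FaceSet (conf w) := by
  refine near_of [0, 5, 18, 26] ((5, 26, 18) : Fin 48 × Fin 48 × Fin 48) _ ?_ (by decide +kernel)
  intro w hw i hi
  simp only [List.mem_cons, List.not_mem_nil, or_false] at hi
  rcases hi with hi | hi | hi | hi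
  · obtain rfl : i = 0 := Fin.ext hi
    simp only [val, nv, dt, crs, m3, Dv, Matrix.cons_val]
    ring
  · obtain rfl : i = 5 := Fin.ext hi
    simp only [val, nv, dt, crs, m3, Dv, Matrix.cons_val]
    ring
  · obtain rfl : i = 18 := Fin.ext hi
    simp only [val, nv, dt, crs, m3, Dv, Matrix.cons_val]
    ring
  · obtain rfl : i = 26 := Fin.ext hi
    simp only [val, nv, dt, crs, m3, Dv, Matrix.cons_val]
    ring

theorem near1 : ∀ᶠ w in 𝓝 w0, (fun _ => True) w → fset [0, 6, 23, 34] ∈ FaceSet (conf w) := by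
  refine near_of [0, 6, 23, 34] ((6, 23, 34) : Fin 48 × Fin 48 × Fin 48) _ ?_ (by decide +kernel)
  intro w hw i hi
  simp only [List.mem_cons, List.not_mem_nil, or_false] at hi
  rcases hi with hi | hi | hi | hi
  · obtain rfl : i = 0 := Fin.ext hi
    simp only [val, nv, dt, crs, m3, Dv, Matrix.cons_val]
    ring
  · obtain rfl : i = 6 := Fin.ext hi
    simp only [val, nv, dt, crs, m3, Dv, Matrix.cons_val]
    ring
  · obtain rfl : i = 23 := Fin.ext hi
    simp only [val, nv, dt, crs, m3, Dv, Matrix.cons_val]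
    ring
  · obtain rfl : i = 34 := Fin.ext hi
    simp only [val, nv, dt, crs, m3, Dv, Matrix.cons_val]
    ring

theorem v2_34 (w : E 4) : val (fun a => w a) ((5, 24, 23) : Fin 48 × Fin 48 × Fin 48) 34 =
    (2) * ((w 0 - w 3) * (w 0 + w 3 - w 1) * qf w) := by
  simp only [val, nv, dt, crs, m3, Dv, c0, c5, c23, c24, c34, qf, Matrix.cons_val]
  ring

theorem near2 : ∀ᶠ w in 𝓝 w0, (fun w => w ∈ Z) w → fset [0, 5, 23, 24, 34] ∈ FaceSet (conf w) := by
  refine near_of [0, 5, 23, 24, 34] ((5, 24, 23) : Fin 48 × Fin 48 × Fin 48) _ ?_ (by decide +kernel)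
  intro w hw i hi
  simp only [List.mem_cons, List.not_mem_nil, or_false] at hi
  rcases hi with hi | hi | hi | hi | hi
  · obtain rfl : i = 0 := Fin.ext hi
    simp only [val, nv, dt, crs, m3, Dv, Matrix.cons_val]
    ring
  · obtain rfl : i = 5 := Fin.ext hi
    simp only [val, nv, dt, crs, m3, Dv, Matrix.cons_val]
    ring
  · obtain rfl : i = 23 := Fin.ext hi
    simp only [val, nv, dt, crs, m3, Dv, Matrix.cons_val]
    ring
  · obtain rfl : i = 24 := Fin.ext hi
    simp only [val, nv, dt, crs, m3, Dv, Matrix.cons_val]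
    ring
  · obtain rfl : i = 34 := Fin.ext hi
    rw [v2_34]
    rcases hw with hw | hw
    · rw [hw]; ring
    · rw [hw]; ring

theorem off2 : ∀ᶠ w in 𝓝 w0, w ∉ Z → fset [0, 5, 23, 24, 34] ∉ FaceSet (conf w) :=
  off_of [0, 5, 23, 24, 34] ((5, 24, 23) : Fin 48 × Fin 48 × Fin 48) 34 (2) (by norm_num) (by decide) (by decide) v2_34

theorem v3_34 (w : E 4) : val (fun a => w a) ((5, 46, 24) : Fin 48 × Fin 48 × Fin 48) 34 =
    (-2) * ((w 0 - w 3) * (w 0 + w 3 - w 1) * qf w) := by
  simp only [val, nv, dt, crs, m3, Dv, c0, c5, c24, c34, c46, qf, Matrix.cons_val]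
  ring

theorem near3 : ∀ᶠ w in 𝓝 w0, (fun w => w ∈ Z) w → fset [0, 5, 24, 34, 46] ∈ FaceSet (conf w) := by
  refine near_of [0, 5, 24, 34, 46] ((5, 46, 24) : Fin 48 × Fin 48 × Fin 48) _ ?_ (by decide +kernel)
  intro w hw i hi
  simp only [List.mem_cons, List.not_mem_nil, or_false] at hi
  rcases hi with hi | hi | hi | hi | hi
  · obtain rfl : i = 0 := Fin.ext hi
    simp only [val, nv, dt, crs, m3, Dv, Matrix.cons_val]
    ring
  · obtain rfl : i = 5 := Fin.ext hi
    simp only [val, nv, dt, crs, m3, Dv, Matrix.cons_val]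
    ring
  · obtain rfl : i = 24 := Fin.ext hi
    simp only [val, nv, dt, crs, m3, Dv, Matrix.cons_val]
    ring
  · obtain rfl : i = 34 := Fin.ext hi
    rw [v3_34]
    rcases hw with hw | hw
    · rw [hw]; ring
    · rw [hw]; ring
  · obtain rfl : i = 46 := Fin.ext hi
    simp only [val, nv, dt, crs, m3, Dv, Matrix.cons_val]
    ring

theorem off3 : ∀ᶠ w in 𝓝 w0, w ∉ Z → fset [0, 5, 24, 34, 46] ∉ FaceSet (conf w) :=
  off_of [0, 5, 24, 34, 46] ((5, 46, 24) : Fin 48 × Fin 48 × Fin 48) 34 (-2) (by norm_num) (by decide) (by decide) v3_34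

theorem v4_34 (w : E 4) : val (fun a => w a) ((6, 8, 39) : Fin 48 × Fin 48 × Fin 48) 34 =
    (-2) * ((w 0 - w 3) * (w 0 + w 3 - w 1) * qf w) := by
  simp only [val, nv, dt, crs, m3, Dv, c0, c6, c8, c34, c39, qf, Matrix.cons_val]
  ring

theorem near4 : ∀ᶠ w in 𝓝 w0, (fun w => w ∈ Z) w → fset [0, 6, 8, 34, 39] ∈ FaceSet (conf w) := by
  refine near_of [0, 6, 8, 34, 39] ((6, 8, 39) : Fin 48 × Fin 48 × Fin 48) _ ?_ (by decide +kernel)
  intro w hw i hi
  simp only [List.mem_cons, List.not_mem_nil, or_false] at hi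
  rcases hi with hi | hi | hi | hi | hi
  · obtain rfl : i = 0 := Fin.ext hi
    simp only [val, nv, dt, crs, m3, Dv, Matrix.cons_val]
    ring
  · obtain rfl : i = 6 := Fin.ext hi
    simp only [val, nv, dt, crs, m3, Dv, Matrix.cons_val]
    ring
  · obtain rfl : i = 8 := Fin.ext hi
    simp only [val, nv, dt, crs, m3, Dv, Matrix.cons_val]
    ring
  · obtain rfl : i = 34 := Fin.ext hi
    rw [v4_34]
    rcases hw with hw | hw
    · rw [hw]; ring
    · rw [hw]; ring
  · obtain rfl : i = 39 := Fin.ext hi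
    simp only [val, nv, dt, crs, m3, Dv, Matrix.cons_val]
    ring

theorem off4 : ∀ᶠ w in 𝓝 w0, w ∉ Z → fset [0, 6, 8, 34, 39] ∉ FaceSet (conf w) :=
  off_of [0, 6, 8, 34, 39] ((6, 8, 39) : Fin 48 × Fin 48 × Fin 48) 34 (-2) (by norm_num) (by decide) (by decide) v4_34

theorem v5_34 (w : E 4) : val (fun a => w a) ((8, 32, 39) : Fin 48 × Fin 48 × Fin 48) 34 =
    (2) * ((w 0 - w 3) * (w 0 + w 3 - w 1) * qf w) := by
  simp only [val, nv, dt, crs, m3, Dv, c0, c8, c32, c34, c39, qf, Matrix.cons_val]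
  ring

theorem near5 : ∀ᶠ w in 𝓝 w0, (fun w => w ∈ Z) w → fset [0, 8, 32, 34, 39] ∈ FaceSet (conf w) := by
  refine near_of [0, 8, 32, 34, 39] ((8, 32, 39) : Fin 48 × Fin 48 × Fin 48) _ ?_ (by decide +kernel)
  intro w hw i hi
  simp only [List.mem_cons, List.not_mem_nil, or_false] at hi
  rcases hi with hi | hi | hi | hi | hi
  · obtain rfl : i = 0 := Fin.ext hi
    simp only [val, nv, dt, crs, m3, Dv, Matrix.cons_val]
    ring
  · obtain rfl : i = 8 := Fin.ext hi
    simp only [val, nv, dt, crs, m3, Dv, Matrix.cons_val]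
    ring
  · obtain rfl : i = 32 := Fin.ext hi
    simp only [val, nv, dt, crs, m3, Dv, Matrix.cons_val]
    ring
  · obtain rfl : i = 34 := Fin.ext hi
    rw [v5_34]
    rcases hw with hw | hw
    · rw [hw]; ring
    · rw [hw]; ring
  · obtain rfl : i = 39 := Fin.ext hi
    simp only [val, nv, dt, crs, m3, Dv, Matrix.cons_val]
    ring

theorem off5 : ∀ᶠ w in 𝓝 w0, w ∉ Z → fset [0, 8, 32, 34, 39] ∉ FaceSet (conf w) :=
  off_of [0, 8, 32, 34, 39] ((8, 32, 39) : Fin 48 × Fin 48 × Fin 48) 34 (2) (by norm_num) (by decide) (by decide) v5_34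

theorem v6_32 (w : E 4) : val (fun a => w a) ((18, 26, 27) : Fin 48 × Fin 48 × Fin 48) 32 =
    (-2) * ((w 0 - w 3) * (w 0 + w 3 - w 1) * qf w) := by
  simp only [val, nv, dt, crs, m3, Dv, c0, c18, c26, c27, c32, qf, Matrix.cons_val]
  ring

theorem near6 : ∀ᶠ w in 𝓝 w0, (fun w => w ∈ Z) w → fset [0, 18, 26, 27, 32] ∈ FaceSet (conf w) := by
  refine near_of [0, 18, 26, 27, 32] ((18, 26, 27) : Fin 48 × Fin 48 × Fin 48) _ ?_ (by decide +kernel)
  intro w hw i hi
  simp only [List.mem_cons, List.not_mem_nil, or_false] at hi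
  rcases hi with hi | hi | hi | hi | hi
  · obtain rfl : i = 0 := Fin.ext hi
    simp only [val, nv, dt, crs, m3, Dv, Matrix.cons_val]
    ring
  · obtain rfl : i = 18 := Fin.ext hi
    simp only [val, nv, dt, crs, m3, Dv, Matrix.cons_val]
    ring
  · obtain rfl : i = 26 := Fin.ext hi
    simp only [val, nv, dt, crs, m3, Dv, Matrix.cons_val]
    ring
  · obtain rfl : i = 27 := Fin.ext hi
    simp only [val, nv, dt, crs, m3, Dv, Matrix.cons_val]
    ring
  · obtain rfl : i = 32 := Fin.ext hi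
    rw [v6_32]
    rcases hw with hw | hw
    · rw [hw]; ring
    · rw [hw]; ring

theorem off6 : ∀ᶠ w in 𝓝 w0, w ∉ Z → fset [0, 18, 26, 27, 32] ∉ FaceSet (conf w) :=
  off_of [0, 18, 26, 27, 32] ((18, 26, 27) : Fin 48 × Fin 48 × Fin 48) 32 (-2) (by norm_num) (by decide) (by decide) v6_32

theorem v7_7 (w : E 4) : val (fun a => w a) ((5, 6, 26) : Fin 48 × Fin 48 × Fin 48) 7 = 0 := by
  simp only [val, nv, dt, crs, m3, Dv, c0, c5, c6, c7, c23, c26, Matrix.cons_val]
  ring

theorem v7_23 (w : E 4) : val (fun a => w a) ((5, 6, 26) : Fin 48 × Fin 48 × Fin 48) 23 = 0 := by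
  simp only [val, nv, dt, crs, m3, Dv, c0, c5, c6, c7, c23, c26, Matrix.cons_val]
  ring

theorem near7 : ∀ᶠ w in 𝓝 w0, (fun _ => True) w → fset [0, 5, 6, 7, 23, 26] ∈ FaceSet (conf w) := by
  refine near_of [0, 5, 6, 7, 23, 26] ((5, 6, 26) : Fin 48 × Fin 48 × Fin 48) _ ?_ (by decide +kernel)
  intro w hw i hi
  simp only [List.mem_cons, List.not_mem_nil, or_false] at hi
  rcases hi with hi | hi | hi | hi | hi | hi
  · obtain rfl : i = 0 := Fin.ext hi
    simp only [val, nv, dt, crs, m3, Dv, Matrix.cons_val]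
    ring
  · obtain rfl : i = 5 := Fin.ext hi
    simp only [val, nv, dt, crs, m3, Dv, Matrix.cons_val]
    ring
  · obtain rfl : i = 6 := Fin.ext hi
    simp only [val, nv, dt, crs, m3, Dv, Matrix.cons_val]
    ring
  · obtain rfl : i = 7 := Fin.ext hi
    exact v7_7 w
  · obtain rfl : i = 23 := Fin.ext hi
    exact v7_23 w
  · obtain rfl : i = 26 := Fin.ext hi
    simp only [val, nv, dt, crs, m3, Dv, Matrix.cons_val]
    ring

theorem v8_27 (w : E 4) : val (fun a => w a) ((5, 18, 20) : Fin 48 × Fin 48 × Fin 48) 27 = 0 := by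
  simp only [val, nv, dt, crs, m3, Dv, c0, c5, c18, c20, c27, c46, Matrix.cons_val]
  ring

theorem v8_46 (w : E 4) : val (fun a => w a) ((5, 18, 20) : Fin 48 × Fin 48 × Fin 48) 46 = 0 := by
  simp only [val, nv, dt, crs, m3, Dv, c0, c5, c18, c20, c27, c46, Matrix.cons_val]
  ring

theorem near8 : ∀ᶠ w in 𝓝 w0, (fun _ => True) w → fset [0, 5, 18, 20, 27, 46] ∈ FaceSet (conf w) := by
  refine near_of [0, 5, 18, 20, 27, 46] ((5, 18, 20) : Fin 48 × Fin 48 × Fin 48) _ ?_ (by decide +kernel)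
  intro w hw i hi
  simp only [List.mem_cons, List.not_mem_nil, or_false] at hi
  rcases hi with hi | hi | hi | hi | hi | hi
  · obtain rfl : i = 0 := Fin.ext hi
    simp only [val, nv, dt, crs, m3, Dv, Matrix.cons_val]
    ring
  · obtain rfl : i = 5 := Fin.ext hi
    simp only [val, nv, dt, crs, m3, Dv, Matrix.cons_val]
    ring
  · obtain rfl : i = 18 := Fin.ext hi
    simp only [val, nv, dt, crs, m3, Dv, Matrix.cons_val]
    ring
  · obtain rfl : i = 20 := Fin.ext hi
    simp only [val, nv, dt, crs, m3, Dv, Matrix.cons_val]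
    ring
  · obtain rfl : i = 27 := Fin.ext hi
    exact v8_27 w
  · obtain rfl : i = 46 := Fin.ext hi
    exact v8_46 w

theorem v9_39 (w : E 4) : val (fun a => w a) ((6, 32, 26) : Fin 48 × Fin 48 × Fin 48) 39 = 0 := by
  simp only [val, nv, dt, crs, m3, Dv, c0, c6, c26, c32, c39, c45, Matrix.cons_val]
  ring

theorem v9_45 (w : E 4) : val (fun a => w a) ((6, 32, 26) : Fin 48 × Fin 48 × Fin 48) 45 = 0 := by
  simp only [val, nv, dt, crs, m3, Dv, c0, c6, c26, c32, c39, c45, Matrix.cons_val]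
  ring

theorem near9 : ∀ᶠ w in 𝓝 w0, (fun _ => True) w → fset [0, 6, 26, 32, 39, 45] ∈ FaceSet (conf w) := by
  refine near_of [0, 6, 26, 32, 39, 45] ((6, 32, 26) : Fin 48 × Fin 48 × Fin 48) _ ?_ (by decide +kernel)
  intro w hw i hi
  simp only [List.mem_cons, List.not_mem_nil, or_false] at hi
  rcases hi with hi | hi | hi | hi | hi | hi
  · obtain rfl : i = 0 := Fin.ext hi
    simp only [val, nv, dt, crs, m3, Dv, Matrix.cons_val]
    ring
  · obtain rfl : i = 6 := Fin.ext hi
    simp only [val, nv, dt, crs, m3, Dv, Matrix.cons_val]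
    ring
  · obtain rfl : i = 26 := Fin.ext hi
    simp only [val, nv, dt, crs, m3, Dv, Matrix.cons_val]
    ring
  · obtain rfl : i = 32 := Fin.ext hi
    simp only [val, nv, dt, crs, m3, Dv, Matrix.cons_val]
    ring
  · obtain rfl : i = 39 := Fin.ext hi
    exact v9_39 w
  · obtain rfl : i = 45 := Fin.ext hi
    exact v9_45 w

theorem v10_34 (w : E 4) : val (fun a => w a) ((27, 32, 33) : Fin 48 × Fin 48 × Fin 48) 34 = 0 := by
  simp only [val, nv, dt, crs, m3, Dv, c0, c27, c32, c33, c34, c46, Matrix.cons_val]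
  ring

theorem v10_46 (w : E 4) : val (fun a => w a) ((27, 32, 33) : Fin 48 × Fin 48 × Fin 48) 46 = 0 := by
  simp only [val, nv, dt, crs, m3, Dv, c0, c27, c32, c33, c34, c46, Matrix.cons_val]
  ring

theorem near10 : ∀ᶠ w in 𝓝 w0, (fun _ => True) w → fset [0, 27, 32, 33, 34, 46] ∈ FaceSet (conf w) := by
  refine near_of [0, 27, 32, 33, 34, 46] ((27, 32, 33) : Fin 48 × Fin 48 × Fin 48) _ ?_ (by decide +kernel)
  intro w hw i hi
  simp only [List.mem_cons, List.not_mem_nil, or_false] at hi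
  rcases hi with hi | hi | hi | hi | hi | hi
  · obtain rfl : i = 0 := Fin.ext hi
    simp only [val, nv, dt, crs, m3, Dv, Matrix.cons_val]
    ring
  · obtain rfl : i = 27 := Fin.ext hi
    simp only [val, nv, dt, crs, m3, Dv, Matrix.cons_val]
    ring
  · obtain rfl : i = 32 := Fin.ext hi
    simp only [val, nv, dt, crs, m3, Dv, Matrix.cons_val]
    ring
  · obtain rfl : i = 33 := Fin.ext hi
    simp only [val, nv, dt, crs, m3, Dv, Matrix.cons_val]
    ring
  · obtain rfl : i = 34 := Fin.ext hi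
    exact v10_34 w
  · obtain rfl : i = 46 := Fin.ext hi
    exact v10_46 w

end Pool.Agent.R29.OP.F

namespace Pool.Agent.R29.OP

open F

/-- F1. -/
theorem nearZ : NearZStm := by
  intro l hl
  rw [eventually_nhdsWithin_iff]
  simp only [facetL, List.mem_cons, List.not_mem_nil, or_false] at hl
  rcases hl with rfl | rfl | rfl | rfl | rfl | rfl | rfl | rfl | rfl | rfl | rfl

  · filter_upwards [near0] with w hw _ using hw trivial
  · filter_upwards [near1] with w hw _ using hw trivial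
  · exact near2
  · exact near3
  · exact near4
  · exact near5
  · exact near6
  · filter_upwards [near7] with w hw _ using hw trivial
  · filter_upwards [near8] with w hw _ using hw trivial
  · filter_upwards [near9] with w hw _ using hw trivial
  · filter_upwards [near10] with w hw _ using hw trivial

/-- F2. -/
theorem near : NearStm := by
  intro l hl h5
  simp only [facetL, List.mem_cons, List.not_mem_nil, or_false] at hl
  rcases hl with rfl | rfl | rfl | rfl | rfl | rfl | rfl | rfl | rfl | rfl | rfl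

  · filter_upwards [near0] with w hw using hw trivial
  · filter_upwards [near1] with w hw using hw trivial
  · exact absurd rfl h5
  · exact absurd rfl h5
  · exact absurd rfl h5
  · exact absurd rfl h5
  · exact absurd rfl h5
  · filter_upwards [near7] with w hw using hw trivial
  · filter_upwards [near8] with w hw using hw trivial
  · filter_upwards [near9] with w hw using hw trivial
  · filter_upwards [near10] with w hw using hw trivial

/-- F3. -/
theorem offZ : OffZStm := by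
  intro l hl h5
  simp only [facetL, List.mem_cons, List.not_mem_nil, or_false] at hl
  rcases hl with rfl | rfl | rfl | rfl | rfl | rfl | rfl | rfl | rfl | rfl | rfl

  · simp at h5
  · simp at h5
  · exact off2
  · exact off3
  · exact off4
  · exact off5
  · exact off6
  · simp at h5
  · simp at h5
  · simp at h5
  · simp at h5

end Pool.Agent.R29.OP
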