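import Pool.Agent.R29.OP.Stm

/-!
# Orbit polytopes, piece G: a coatom with five atoms
-/

set_option autoImplicit false

open Set Metric
open scoped InnerProductSpace

namespace Pool.Agent.R29.OP

theorem hasFiveIso : HasFiveIsoStm := by
  rintro α β _ _ ⟨e⟩ ⟨x, ⟨t, ht, hx⟩, hc⟩
  have htop : ∀ t : α, IsTop t → IsTop (e t) := fun t ht y => by
    rw [← e.apply_symm_apply y, e.le_iff_le]
    exact ht _
  have hbot : ∀ t : α, IsBot t → IsBot (e t) := fun t ht y => by
    rw [← e.apply_symm_apply y, e.le_iff_le]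
    exact ht _
  have hbot' : ∀ t : β, IsBot t → IsBot (e.symm t) := fun t ht y => by
    rw [← e.symm_apply_apply y, e.symm.le_iff_le]
    exact ht _
  refine ⟨e x, ⟨e t, htop t ht, (apply_covBy_apply_iff e).2 hx⟩, ?_⟩
  rw [← hc, ← Set.ncard_image_of_injective _ e.injective]
  congr 1
  ext a
  simp only [mem_setOf_eq, mem_image]
  constructor
  · rintro ⟨⟨b, hb, hba⟩, hax⟩
    refine ⟨e.symm a, ⟨⟨e.symm b, hbot' b hb, (apply_covBy_apply_iff e.symm).2 hba⟩, ?_⟩,
      e.apply_symm_apply a⟩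
    rw [e.symm_apply_le]
    exact hax
  · rintro ⟨a, ⟨⟨b, hb, hba⟩, hax⟩, rfl⟩
    exact ⟨⟨e b, hbot b hb, (apply_covBy_apply_iff e).2 hba⟩, e.le_iff_le.2 hax⟩

theorem univ_face {k : ℕ} {I : Type} (p : I → E k) : (univ : Set I) ∈ FaceSet p :=
  ⟨0, 0, fun _ _ => rfl, fun i hi => absurd (mem_univ i) hi⟩

theorem empty_face {k : ℕ} {I : Type} (p : I → E k) : (∅ : Set I) ∈ FaceSet p :=
  ⟨0, 1, fun i hi => absurd hi (notMem_empty i), fun _ _ => by simp⟩

theorem single_face {k : ℕ} {I : Type} {p : I → E k} {r : ℝ} (hp : Function.Injective p)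
    (hr : ∀ i, ‖p i‖ = r) (i : I) : ({i} : Set I) ∈ FaceSet p := by
  refine ⟨innerSL ℝ (p i), r ^ 2, ?_, ?_⟩
  · intro j hj
    rw [mem_singleton_iff] at hj
    rw [hj, innerSL_apply_apply, real_inner_self_eq_norm_sq, hr]
  · intro j hj
    rw [mem_singleton_iff] at hj
    rw [innerSL_apply_apply]
    have h1 : 0 < ‖p i - p j‖ := by
      rw [norm_pos_iff, sub_ne_zero]
      exact fun h => hj (hp h).symm
    have h2 := norm_sub_sq_real (p i) (p j)
    rw [hr, hr] at h2
    nlinarith [mul_pos h1 h1]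

theorem hasFiveFace : HasFiveFaceStm := by
  intro k I _ p r hp hr hcard
  have htop : ∀ t : {S : Set I // S ∈ FaceSet p}, IsTop t ↔ t.1 = univ := by
    intro t
    constructor
    · intro h
      exact univ_subset_iff.1 (h ⟨univ, univ_face p⟩)
    · intro h s
      change s.1 ⊆ t.1
      rw [h]
      exact subset_univ _
  have hbot : ∀ t : {S : Set I // S ∈ FaceSet p}, IsBot t ↔ t.1 = ∅ := by
    intro t
    constructor
    · intro h
      exact subset_empty_iff.1 (h ⟨∅, empty_face p⟩)
    · intro h s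
      change t.1 ⊆ s.1
      rw [h]
      exact empty_subset _
  have hco : ∀ x : {S : Set I // S ∈ FaceSet p}, (∃ t, IsTop t ∧ x ⋖ t) ↔ IsFacet p x.1 := by
    intro x
    constructor
    · rintro ⟨t, ht, hx⟩
      have ht' := (htop t).1 ht
      refine ⟨x.2, fun h => ?_, fun T hT hTu hxT => ?_⟩
      · exact hx.1.ne (Subtype.ext (h.trans ht'.symm))
      · by_contra hne
        refine hx.2 (c := ⟨T, hT⟩) ?_ ?_
        · exact lt_of_le_of_ne hxT fun h => hne (congrArg Subtype.val h).symm
        · exact lt_of_le_of_ne (ht _) fun h => hTu ((congrArg Subtype.val h).trans ht')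
    · rintro ⟨-, h2, h3⟩
      refine ⟨⟨univ, univ_face p⟩, (htop _).2 rfl, ?_, ?_⟩
      · exact lt_of_le_of_ne (subset_univ _) fun h => h2 (congrArg Subtype.val h)
      · intro c hc1 hc2
        have h4 := h3 c.1 c.2 (fun h => hc2.ne (Subtype.ext h)) hc1.le
        exact hc1.ne (Subtype.ext h4.symm)
  have hat : ∀ a : {S : Set I // S ∈ FaceSet p}, (∃ b, IsBot b ∧ b ⋖ a) ↔ ∃ i, a.1 = {i} := by
    intro a
    constructor
    · rintro ⟨b, hb, hba⟩
      have hb' := (hbot b).1 hb
      have hne : a.1.Nonempty := by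
        by_contra h
        rw [not_nonempty_iff_eq_empty] at h
        exact hba.1.ne (Subtype.ext (hb'.trans h.symm))
      obtain ⟨i, hi⟩ := hne
      refine ⟨i, ?_⟩
      by_contra hne
      refine hba.2 (c := ⟨{i}, single_face hp hr i⟩) ?_ ?_
      · refine lt_of_le_of_ne (hb _) fun h => ?_
        have := congrArg Subtype.val h
        rw [hb'] at this
        exact singleton_ne_empty i this.symm
      · exact lt_of_le_of_ne (singleton_subset_iff.2 hi) fun h => hne (congrArg Subtype.val h).symm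
    · rintro ⟨i, hi⟩
      refine ⟨⟨∅, empty_face p⟩, (hbot _).2 rfl, ?_, ?_⟩
      · refine lt_of_le_of_ne (empty_subset _) fun h => ?_
        have := congrArg Subtype.val h
        rw [hi] at this
        exact singleton_ne_empty i this.symm
      · intro c hc1 hc2
        have h1 : c.1 ⊆ {i} := hi ▸ hc2.le
        rcases subset_singleton_iff_eq.1 h1 with h | h
        · exact hc1.ne (Subtype.ext h.symm)
        · exact hc2.ne (Subtype.ext (h.trans hi.symm))
  have hn : ∀ x : {S : Set I // S ∈ FaceSet p},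
      Set.ncard {a | (∃ b, IsBot b ∧ b ⋖ a) ∧ a ≤ x} = x.1.ncard := by
    intro x
    have hinj : Function.Injective (fun i : I =>
        (⟨{i}, single_face hp hr i⟩ : {S : Set I // S ∈ FaceSet p})) := by
      intro i j hij
      exact singleton_injective (congrArg Subtype.val hij)
    rw [← Set.ncard_image_of_injective x.1 hinj]
    congr 1
    ext a
    simp only [mem_setOf_eq, mem_image]
    rw [hat]
    constructor
    · rintro ⟨⟨i, hi⟩, hax⟩
      refine ⟨i, ?_, Subtype.ext hi.symm⟩
      apply hax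
      rw [hi]
      exact mem_singleton i
    · rintro ⟨i, hi, rfl⟩
      exact ⟨⟨i, rfl⟩, singleton_subset_iff.2 hi⟩
  constructor
  · rintro ⟨x, hx, hc⟩
    rw [hn] at hc
    exact ⟨x.1, (hco x).1 hx, hc⟩
  · rintro ⟨F, hF, hc⟩
    refine ⟨⟨F, hF.1⟩, (hco _).2 hF, ?_⟩
    rw [hn]
    exact hc

end Pool.Agent.R29.OP
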