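import Pool.Agent.R29.OP.A1
import Pool.Agent.R29.OP.A2
import Pool.Agent.R29.OP.B
import Pool.Agent.R29.OP.C
import Pool.Agent.R29.OP.D
import Pool.Agent.R29.OP.Five
import Pool.Agent.R29.OP.E5

/-!
# Assembly 1: the type class near `w0` (MP_7b675e_co)
-/

set_option autoImplicit false

open Set Metric Filter Topology

namespace Pool.Agent.R29.OP

theorem continuous_conf (i : Fin 48) : Continuous fun w : E 4 => conf w i := (LI i).continuous

theorem mulF_back (i : Fin 48) (F : Set (Fin 48)) : mulF (invI i) '' (mulF i '' F) = F := by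
  rw [Set.image_image]
  have : (fun x => mulF (invI i) (mulF i x)) = id := by
    funext x
    exact mulF_left i x
  rw [this, Set.image_id]

theorem to_zero (w : E 4) (F : Set (Fin 48)) (hF : IsFacet (conf w) F) (hne : F.Nonempty) :
    ∃ i, IsFacet (conf w) (mulF i '' F) ∧ (0 : Fin 48) ∈ mulF i '' F := by
  obtain ⟨j, hj⟩ := hne
  obtain ⟨i, hi⟩ := (transStm w 0 F).2.2.2 j
  exact ⟨i, (transStm w i F).2.2.1 hF, ⟨j, hj, hi⟩⟩

theorem facet_nonempty (w : E 4) (hw : Function.Injective (conf w)) (F : Set (Fin 48))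
    (hF : IsFacet (conf w) F) : F.Nonempty := by
  by_contra h
  rw [Set.not_nonempty_iff_eq_empty] at h
  have h1 := hF.2.2 {0} (single_face hw (fun i => conf_norm w i) 0) (by
    intro h2
    have h3 : (1 : Fin 48) ∈ ({0} : Set (Fin 48)) := by rw [h2]; trivial
    rw [Set.mem_singleton_iff] at h3
    exact absurd h3 (by decide)) (by rw [h]; exact Set.empty_subset _)
  rw [h] at h1
  exact Set.singleton_ne_empty _ h1

theorem facets_zero (F : Set (Fin 48)) (hF : IsFacet (conf w0) F) (h0 : (0 : Fin 48) ∈ F) :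
    ∃ l ∈ facetL, F = fset l := facetsStm facetUnique F hF h0

theorem evZ (nearZ : NearZStm) : ∀ᶠ w in 𝓝[Z] w0, FaceSet (conf w) = FaceSet (conf w0) := by
  refine localConst existsFacet faceSetEq 4 4 (Fin 48) (fun w => conf w) w0 Z
    continuous_conf spans_conf0 ?_
  intro F hF
  obtain ⟨i, hi, hi0⟩ := to_zero w0 F hF (facet_nonempty w0 conf0_injective F hF)
  obtain ⟨l, hl, hFl⟩ := facets_zero _ hi hi0
  filter_upwards [nearZ l hl] with w hw
  have h1 := face_trans w (invI i) _ hw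
  rw [← hFl, mulF_back] at h1
  exact h1

theorem ncard_check : ∀ l ∈ facetL,
    (Finset.univ.filter (fun i : Fin 48 => (i : ℕ) ∈ l)).card = l.length := by decide +kernel

theorem ncard_fset (l : List ℕ) (hl : l ∈ facetL) : (fset l).ncard = l.length := by
  rw [← ncard_check l hl]
  have : fset l = ((Finset.univ.filter (fun i : Fin 48 => (i : ℕ) ∈ l) : Finset (Fin 48)) :
      Set (Fin 48)) := by
    ext i
    simp [fset]
  rw [this, Set.ncard_coe_finset]

theorem evOff (near : NearStm) (offZ : OffZStm) :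
    ∀ᶠ w in 𝓝 w0, w ∉ Z → ∀ F, IsFacet (conf w) F → F.ncard ≠ 5 := by
  have hU := upper 4 4 (Fin 48) (fun w => conf w) w0 continuous_conf spans_conf0
  have hN : ∀ᶠ w in 𝓝 w0, ∀ l ∈ {l | l ∈ facetL}, l.length ≠ 5 → fset l ∈ FaceSet (conf w) := by
    rw [Filter.eventually_all_finite (List.finite_toSet facetL)]
    intro l hl
    by_cases h5 : l.length = 5
    · exact Eventually.of_forall fun w h => absurd h5 h
    · filter_upwards [near l hl h5] with w hw _
      exact hw
  have hO : ∀ᶠ w in 𝓝 w0, ∀ l ∈ {l | l ∈ facetL}, l.length = 5 → w ∉ Z →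
      fset l ∉ FaceSet (conf w) := by
    rw [Filter.eventually_all_finite (List.finite_toSet facetL)]
    intro l hl
    by_cases h5 : l.length = 5
    · filter_upwards [offZ l hl h5] with w hw _
      exact hw
    · exact Eventually.of_forall fun w h => absurd h h5
  filter_upwards [hU, hN, hO] with w hU hN hO hwZ F hF hF5
  have hne : F.Nonempty := by
    rw [← Set.ncard_pos]
    omega
  obtain ⟨i, hi, hi0⟩ := to_zero w F hF hne
  have hc : (mulF i '' F).ncard = 5 := by
    rw [Set.ncard_image_of_injective _ (mulF_left i).injective, hF5]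
  generalize mulF i '' F = G at hi hi0 hc
  obtain ⟨T, hT, hTu, hGT⟩ := hU G hi.1 hi.2.1
  obtain ⟨j, hj⟩ : ∃ j, j ∉ T := by
    by_contra h
    push Not at h
    exact hTu (Set.eq_univ_of_forall h)
  obtain ⟨F', hF', hTF', hj'⟩ := existsFacet 4 (Fin 48) (conf w0) T hT j hj
  obtain ⟨l, hl, hFl⟩ := facets_zero F' hF' (hTF' (hGT hi0))
  have hsub : G ⊆ fset l := by
    rw [← hFl]
    exact hGT.trans hTF'
  by_cases h5 : l.length = 5
  · have hG : G = fset l := Set.eq_of_subset_of_ncard_le hsub (by rw [ncard_fset l hl, h5, hc])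
    exact hO l hl h5 hwZ (hG ▸ hi.1)
  · have h6 := hi.2.2 (fset l) (hN l hl h5) (by rw [← hFl]; exact hF'.2.1) hsub
    rw [← h6, ncard_fset l hl] at hc
    exact h5 hc

theorem five_check : ∀ l ∈ facetL, (∀ x ∈ [0, 5, 23, 24, 34], x ∈ l) → l = [0, 5, 23, 24, 34] := by
  decide +kernel

theorem w0_mem_Z : w0 ∈ Z := by
  left
  simp [w0]

theorem five_facet (nearZ : NearZStm) : ∃ F, IsFacet (conf w0) F ∧ F.ncard = 5 := by
  have hl5 : [0, 5, 23, 24, 34] ∈ facetL := by decide +kernel
  have h1 : fset [0, 5, 23, 24, 34] ∈ FaceSet (conf w0) :=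
    (nearZ _ hl5).self_of_nhdsWithin w0_mem_Z
  obtain ⟨F, hF, hsub, _⟩ := existsFacet 4 (Fin 48) (conf w0) _ h1 1 (by
    intro h
    exact absurd h (by unfold fset; decide))
  obtain ⟨l, hl, hFl⟩ := facets_zero F hF (hsub (show (0 : ℕ) ∈ [0, 5, 23, 24, 34] by decide))
  have h2 := five_check l hl (by
    intro x hx
    have hx48 : x < 48 := by
      have : ∀ x ∈ [0, 5, 23, 24, 34], x < 48 := by decide
      exact this x hx
    have h3 : (⟨x, hx48⟩ : Fin 48) ∈ F := hsub hx
    rw [hFl] at h3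
    exact h3)
  refine ⟨F, hF, ?_⟩
  rw [hFl, ncard_fset l hl, h2]
  rfl

theorem evInj : ∀ᶠ w in 𝓝 w0, Function.Injective (conf w) := by
  have h : ∀ᶠ w in 𝓝 w0, ∀ i j : Fin 48, i ≠ j → conf w i ≠ conf w j := by
    rw [Filter.eventually_all]
    intro i
    rw [Filter.eventually_all]
    intro j
    by_cases hij : i = j
    · exact Eventually.of_forall fun w h => absurd hij h
    · have h1 : conf w0 i ≠ conf w0 j := fun h => hij (conf0_injective h)
      have h2 : ∀ᶠ w in 𝓝 w0, conf w i ≠ conf w j :=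
        (isOpen_ne_fun (continuous_conf i) (continuous_conf j)).mem_nhds h1
      filter_upwards [h2] with w hw _
      exact hw
  filter_upwards [h] with w hw i j hij
  by_contra hne
  exact hw i j hne hij

theorem orbit_eq (w : E 4) : orbitPolytope GG w = convexHull ℝ (range (conf w)) := by
  unfold orbitPolytope
  congr 1
  ext x
  constructor
  · rintro ⟨_, ⟨i, rfl⟩, rfl⟩
    exact ⟨i, rfl⟩
  · rintro ⟨i, rfl⟩
    exact ⟨LI i, ⟨i, rfl⟩, rfl⟩

theorem sameType_iff (w w' : E 4) : SameType (orbitPolytope GG w) (orbitPolytope GG w') ↔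
    Nonempty ({S : Set (Fin 48) // S ∈ FaceSet (conf w)} ≃o
      {S : Set (Fin 48) // S ∈ FaceSet (conf w')}) := by
  rw [orbit_eq, orbit_eq]
  obtain ⟨e⟩ := faceIso 4 (Fin 48) (conf w)
  obtain ⟨e'⟩ := faceIso 4 (Fin 48) (conf w')
  constructor
  · rintro ⟨f⟩
    exact ⟨(e.symm.trans f).trans e'⟩
  · rintro ⟨f⟩
    exact ⟨(e.trans f).trans e'.symm⟩

theorem ev_in (nearZ : NearZStm) : ∀ᶠ w in 𝓝 w0, w ∈ Z →
    SameType (orbitPolytope GG w) (orbitPolytope GG w0) := by
  have h := evZ nearZ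
  rw [eventually_nhdsWithin_iff] at h
  filter_upwards [h] with w hw hwZ
  rw [sameType_iff, hw hwZ]
  exact ⟨OrderIso.refl _⟩

theorem ev_out (nearZ : NearZStm) (near : NearStm) (offZ : OffZStm) : ∀ᶠ w in 𝓝 w0,
    SameType (orbitPolytope GG w) (orbitPolytope GG w0) → w ∈ Z := by
  filter_upwards [evOff near offZ, evInj] with w h1 h2 h3
  by_contra hZ
  rw [sameType_iff] at h3
  have h4 : HasFive {S : Set (Fin 48) // S ∈ FaceSet (conf w0)} := by
    rw [hasFiveFace 4 (Fin 48) (conf w0) ‖w0‖ conf0_injective (fun i => conf_norm w0 i) (by simp)]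
    exact five_facet nearZ
  have h5 : HasFive {S : Set (Fin 48) // S ∈ FaceSet (conf w)} := by
    obtain ⟨f⟩ := h3
    exact hasFiveIso _ _ ⟨f.symm⟩ h4
  rw [hasFiveFace 4 (Fin 48) (conf w) ‖w‖ h2 (fun i => conf_norm w i) (by simp)] at h5
  obtain ⟨F, hF, hF5⟩ := h5
  exact h1 hZ F hF hF5

end Pool.Agent.R29.OP
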