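import Pool.Agent.R29.OP.G1

/-!
# Assembly 2: the class is not a submanifold (MP_7b675e_co)
-/

set_option autoImplicit false

open Set Metric Filter Topology

namespace Pool.Agent.R29.OP

/-- three directions at `w0` -/
noncomputable def v1 : E 4 := !₂[1, -1, 0, 1]
noncomputable def v2 : E 4 := !₂[0, 1, -4, 0]
noncomputable def v3 : E 4 := !₂[1, 0, 0, -1]
noncomputable def uu : E 4 := !₂[2, -1, 0, 0]

theorem Z_smul (c : ℝ) (w : E 4) (hw : w ∈ Z) : c • w ∈ Z := by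
  rcases hw with h | h
  · left
    rw [PiLp.smul_apply, PiLp.smul_apply, h]
  · right
    rw [PiLp.smul_apply, PiLp.smul_apply, PiLp.smul_apply, h]
    simp only [smul_eq_mul]
    ring

theorem nsq (x : E 4) : ‖x‖ ^ 2 = x 0 ^ 2 + x 1 ^ 2 + x 2 ^ 2 + x 3 ^ 2 := by
  rw [EuclideanSpace.norm_sq_eq]
  simp [Fin.sum_univ_four]

/-- the scaling factor -/
noncomputable def sc (N t : ℝ) : ℝ := 5 / √(25 + N * t ^ 2)

/-- the curve -/
noncomputable def gam (v : E 4) (t : ℝ) : E 4 := sc (‖v‖ ^ 2) t • (w0 + t • v)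

theorem sc_pos (N t : ℝ) (hN : 0 ≤ N) : 0 < 25 + N * t ^ 2 := by positivity

theorem sc_zero (N : ℝ) : sc N 0 = 1 := by
  unfold sc
  have : (25 + N * 0 ^ 2 : ℝ) = 5 ^ 2 := by norm_num
  rw [this, Real.sqrt_sq (by norm_num)]
  norm_num

theorem gam_zero (v : E 4) : gam v 0 = w0 := by
  unfold gam
  rw [sc_zero]
  simp

theorem sc_deriv (N : ℝ) : HasDerivAt (sc N) 0 0 := by
  have h1 : HasDerivAt (fun t : ℝ => 25 + N * t ^ 2) 0 0 := by
    have := ((hasDerivAt_pow 2 (0 : ℝ)).const_mul N).const_add 25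
    simpa using this
  have h2 : HasDerivAt (fun t : ℝ => √(25 + N * t ^ 2)) 0 0 := by
    have := h1.sqrt (by norm_num)
    simpa using this
  have h3 := (hasDerivAt_const (0 : ℝ) (5 : ℝ)).div h2 (by
      have : (25 + N * 0 ^ 2 : ℝ) = 5 ^ 2 := by norm_num
      rw [this, Real.sqrt_sq (by norm_num)]
      norm_num)
  have e : (0 * √(25 + N * 0 ^ 2) - 5 * 0) / √(25 + N * 0 ^ 2) ^ 2 = 0 := by simp
  rw [e] at h3
  exact h3

theorem gam_deriv (v : E 4) : HasDerivAt (gam v) v 0 := by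
  have h1 : HasDerivAt (fun t : ℝ => w0 + t • v) v 0 := by
    have := ((hasDerivAt_id (0 : ℝ)).smul_const v).const_add w0
    simpa using this
  have h2 := (sc_deriv (‖v‖ ^ 2)).smul h1
  have e : sc (‖v‖ ^ 2) 0 • v + (0 : ℝ) • (w0 + (0 : ℝ) • v) = v := by
    rw [sc_zero]
    simp
  rw [e] at h2
  exact h2

theorem gam_cont (v : E 4) : Continuous (gam v) := by
  unfold gam
  have h1 : Continuous (sc (‖v‖ ^ 2)) := by
    unfold sc
    refine continuous_const.div (by fun_prop) ?_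
    intro t
    exact (Real.sqrt_pos.2 (sc_pos _ t (by positivity))).ne'
  fun_prop

theorem gam_norm (v : E 4) (hv : inner ℝ w0 v = 0) (t : ℝ) : ‖gam v t‖ = 5 := by
  unfold gam
  have hw0 : ‖w0‖ ^ 2 = 25 := by
    rw [nsq]
    simp [w0]
    norm_num
  have h1 : ‖w0 + t • v‖ ^ 2 = 25 + ‖v‖ ^ 2 * t ^ 2 := by
    rw [norm_add_sq_real, inner_smul_right, hv, hw0, norm_smul, mul_pow, Real.norm_eq_abs, sq_abs]
    ring
  have h2 : ‖w0 + t • v‖ = √(25 + ‖v‖ ^ 2 * t ^ 2) := by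
    rw [← h1, Real.sqrt_sq (norm_nonneg _)]
  have h3 : 0 < √(25 + ‖v‖ ^ 2 * t ^ 2) := Real.sqrt_pos.2 (sc_pos _ t (by positivity))
  rw [norm_smul, h2, sc, Real.norm_eq_abs, abs_of_pos (by positivity)]
  field_simp

theorem gam_Z (v : E 4) (hv : ∀ t : ℝ, w0 + t • v ∈ Z) (t : ℝ) : gam v t ∈ Z :=
  Z_smul _ _ (hv t)

theorem w0_norm : ‖w0‖ = 5 := by
  have hw0 : ‖w0‖ ^ 2 = 5 ^ 2 := by
    rw [nsq]
    simp [w0]
    norm_num
  exact (pow_left_inj₀ (norm_nonneg _) (by norm_num) (by norm_num)).1 hw0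

theorem gam_mem (nearZ : NearZStm) (v : E 4) (hv : inner ℝ w0 v = 0)
    (hvZ : ∀ t : ℝ, w0 + t • v ∈ Z) :
    ∀ᶠ t in 𝓝 (0 : ℝ), gam v t ∈ connectedComponentIn (typeClass GG 5 w0) w0 := by
  have h1 := ev_in nearZ
  have h2 : Tendsto (gam v) (𝓝 0) (𝓝 w0) := by
    have := (gam_cont v).tendsto 0
    rwa [gam_zero] at this
  have h3 := h2.eventually h1
  rw [Metric.eventually_nhds_iff] at h3
  obtain ⟨δ, hδ, h3⟩ := h3
  have h4 : gam v '' Metric.ball (0 : ℝ) δ ⊆ typeClass GG 5 w0 := by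
    rintro _ ⟨t, ht, rfl⟩
    refine ⟨?_, h3 ht (gam_Z v hvZ t)⟩
    rw [mem_sphere_zero_iff_norm]
    exact gam_norm v hv t
  have h5 : IsPreconnected (gam v '' Metric.ball (0 : ℝ) δ) :=
    ((convex_ball (0 : ℝ) δ).isPreconnected).image _ (gam_cont v).continuousOn
  have h6 : w0 ∈ gam v '' Metric.ball (0 : ℝ) δ := ⟨0, Metric.mem_ball_self hδ, gam_zero v⟩
  have h7 := h5.subset_connectedComponentIn h6 h4
  filter_upwards [Metric.ball_mem_nhds (0 : ℝ) hδ] with t ht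
  exact h7 ⟨t, ht, rfl⟩

theorem inner4 (x y : E 4) : inner ℝ x y = y 0 * x 0 + y 1 * x 1 + y 2 * x 2 + y 3 * x 3 := by
  rw [PiLp.inner_apply]
  simp [Fin.sum_univ_four]

theorem v1_perp : inner ℝ w0 v1 = 0 := by
  rw [inner4]
  simp [w0, v1]
  norm_num

theorem v2_perp : inner ℝ w0 v2 = 0 := by
  rw [inner4]
  simp [w0, v2]

theorem v3_perp : inner ℝ w0 v3 = 0 := by
  rw [inner4]
  simp [w0, v3]

theorem v1_Z (t : ℝ) : w0 + t • v1 ∈ Z := by
  left
  simp [w0, v1]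

theorem v2_Z (t : ℝ) : w0 + t • v2 ∈ Z := by
  left
  simp [w0, v2]

theorem v3_Z (t : ℝ) : w0 + t • v3 ∈ Z := by
  right
  simp [w0, v3]
  ring

theorem span_top : Submodule.span ℝ {v1, v2, v3} ⊔ Submodule.span ℝ {w0} = ⊤ := by
  rw [eq_top_iff]
  intro x _
  rw [Submodule.mem_sup]
  set δ := (x 2 + 4 * x 1 + 2 * (x 0 + x 3)) / 25 with hδ
  set m := (x 0 + x 3) / 2 with hm
  refine ⟨(m - 2 * δ) • v1 + (x 1 + m - 6 * δ) • v2 + ((x 0 - x 3) / 2) • v3, ?_, δ • w0, ?_, ?_⟩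
  · refine Submodule.add_mem _ (Submodule.add_mem _ ?_ ?_) ?_ <;>
      exact Submodule.smul_mem _ _ (Submodule.subset_span (by simp))
  · exact Submodule.smul_mem _ _ (Submodule.mem_span_singleton_self _)
  · ext a
    fin_cases a
    · simp [v1, v2, v3, w0]
      rw [hm]
      ring
    · simp [v1, v2, v3, w0]
      ring
    · simp [v1, v2, v3, w0]
      rw [hm, hδ]
      ring
    · simp [v1, v2, v3, w0]
      rw [hm]
      ring

theorem uu_mem : uu ∈ Submodule.span ℝ {v1, v2, v3} := by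
  have : uu = v1 + v3 := by
    ext a
    fin_cases a
    · simp [uu, v1, v3]
      norm_num
    · simp [uu, v1, v3]
    · simp [uu, v1, v3]
    · simp [uu, v1, v3]
  rw [this]
  exact Submodule.add_mem _ (Submodule.subset_span (by simp)) (Submodule.subset_span (by simp))

theorem off_Z (t s : ℝ) (ht : t ≠ 0) : w0 + t • uu + s • w0 ∉ Z := by
  rintro (h | h)
  · simp [w0, uu] at h
    exact ht h
  · simp [w0, uu] at h
    apply ht
    linarith

theorem main (nearZ : NearZStm) (near : NearStm) (offZ : OffZStm) : MainStatement := by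
  have hw0 : w0 ∈ typeClass GG 5 w0 := by
    refine ⟨?_, ⟨OrderIso.refl _⟩⟩
    rw [mem_sphere_zero_iff_norm]
    exact w0_norm
  refine ⟨4, GG, 5, w0, by norm_num, (Set.finite_range LI).to_subtype, by norm_num, hw0.1, ?_⟩
  refine notC1 4 _ w0 uu {v1, v2, v3} (mem_connectedComponentIn hw0) span_top uu_mem ?_ ?_
  · intro v hv
    have h : inner ℝ w0 v = 0 ∧ ∀ t : ℝ, w0 + t • v ∈ Z := by
      rcases hv with rfl | rfl | rfl
      · exact ⟨v1_perp, v1_Z⟩
      · exact ⟨v2_perp, v2_Z⟩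
      · exact ⟨v3_perp, v3_Z⟩
    refine ⟨gam v, gam_zero v, gam_deriv v, ?_⟩
    exact (gam_mem nearZ v h.1 h.2).filter_mono nhdsWithin_le_nhds
  · have h1 := ev_out nearZ near offZ
    have h2 : Tendsto (fun q : ℝ × ℝ => w0 + q.1 • uu + q.2 • w0) (𝓝 (0, 0)) (𝓝 w0) := by
      have hc : Continuous (fun q : ℝ × ℝ => w0 + q.1 • uu + q.2 • w0) := by fun_prop
      have := hc.tendsto (0, 0)
      simpa using this
    filter_upwards [h2.eventually h1] with q hq hq1 hM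
    have h3 := connectedComponentIn_subset _ _ hM
    exact off_Z q.1 q.2 hq1 (hq h3.2)

end Pool.Agent.R29.OP
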