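import Pool.Agent.R29.OP.Data

/-!
# Statements of the pieces (MP_7b675e_co); proofs go to the files A.lean, B.lean, C.lean, ...
Only `Pool.Agent.R29.OP.Defs` (and `Data` for D, E, F) has to be imported.
-/

set_option autoImplicit false

open Set Metric Filter Topology

namespace Pool.Agent.R29.OP

/-! ## Piece A: faces of a configuration -/

/-- A1. The face lattice of the convex hull is the labelled face poset. -/
def FaceIsoStm : Prop := ∀ (k : ℕ) (I : Type) [Finite I] [Nonempty I] (p : I → E k),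
  Nonempty (FaceLattice (convexHull ℝ (range p)) ≃o {S : Set I // S ∈ FaceSet p})

/-- A2. Every proper face is an intersection of facets. -/
def ExistsFacetStm : Prop := ∀ (k : ℕ) (I : Type) [Finite I] (p : I → E k) (S : Set I),
  S ∈ FaceSet p → ∀ i, i ∉ S → ∃ F, IsFacet p F ∧ S ⊆ F ∧ i ∉ F

/-- A3. The supporting functional of a facet is unique up to scaling: any affine functional
vanishing on the facet is a multiple of it (on the configuration). -/
def FacetUniqueStm : Prop := ∀ (k : ℕ) (I : Type) [Finite I] (p : I → E k) (F : Set I),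
  IsFacet p F → ∀ (c : E k →L[ℝ] ℝ) (h : ℝ), (∀ i ∈ F, c (p i) = h) →
    ∀ (c' : E k →L[ℝ] ℝ) (h' : ℝ), (∀ i ∈ F, c' (p i) = h') → (∀ i, i ∉ F → c' (p i) < h') →
      ∃ s : ℝ, ∀ i, h - c (p i) = s * (h' - c' (p i))

/-- A4. The facets determine all faces. -/
def FaceSetEqStm : Prop := ∀ (k : ℕ) (I : Type) [Finite I] (p q : I → E k),
  (∀ F, IsFacet p F ↔ IsFacet q F) → FaceSet p = FaceSet q

/-! ## Piece B: nearby configurations -/

/-- B1. Upper semicontinuity of the faces. -/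
def UpperStm : Prop := ∀ (k m : ℕ) (I : Type) [Finite I] (p : E m → I → E k) (x₀ : E m),
  (∀ i, Continuous fun x => p x i) → Spans (p x₀) →
    ∀ᶠ x in 𝓝 x₀, ∀ S ∈ FaceSet (p x), S ≠ univ → ∃ T ∈ FaceSet (p x₀), T ≠ univ ∧ S ⊆ T

/-- B2. Local constancy along a set on which all the facets stay faces. -/
def LocalConstStm : Prop := ∀ (k m : ℕ) (I : Type) [Finite I] (p : E m → I → E k) (x₀ : E m)
    (Z : Set (E m)),
  (∀ i, Continuous fun x => p x i) → Spans (p x₀) →
    (∀ F, IsFacet (p x₀) F → ∀ᶠ x in 𝓝[Z] x₀, F ∈ FaceSet (p x)) →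
    ∀ᶠ x in 𝓝[Z] x₀, FaceSet (p x) = FaceSet (p x₀)

/-! ## Piece C: a criterion for not being a submanifold -/

def NotC1Stm : Prop := ∀ (k : ℕ) (M : Set (E k)) (w u : E k) (D : Set (E k)),
  w ∈ M →
  Submodule.span ℝ D ⊔ Submodule.span ℝ {w} = ⊤ →
  u ∈ Submodule.span ℝ D →
  (∀ v ∈ D, ∃ γ : ℝ → E k, γ 0 = w ∧ HasDerivAt γ v 0 ∧ ∀ᶠ t in 𝓝[>] (0 : ℝ), γ t ∈ M) →
  (∀ᶠ q : ℝ × ℝ in 𝓝 (0, 0), q.1 ≠ 0 → w + q.1 • u + q.2 • w ∉ M) →
  ¬ IsC1Submanifold M

/-! ## Piece D: the group -/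

/-- The isometry with index `i`, the subgroup, and its orbits. -/
def GroupStm : Prop := ∃ (L : Fin 48 → (E 4 ≃ₗᵢ[ℝ] E 4)) (Γ : Subgroup (E 4 ≃ₗᵢ[ℝ] E 4)),
  (∀ i w, L i w = conf w i) ∧ (∀ g, g ∈ Γ ↔ ∃ i, L i = g) ∧
  (∀ i j : Fin 48, ∃ l : Fin 48, (l : ℕ) = mulN i j ∧ L i * L j = L l) ∧
  Finite Γ ∧ ∀ w, {x | ∃ g ∈ Γ, g w = x} = range (conf w)

/-- Left translation of index sets. -/
def mulF (i j : Fin 48) : Fin 48 := ⟨mulN i j % 48, Nat.mod_lt _ (by norm_num)⟩

/-- D2. Faces are permuted by left translations. -/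
def TransStm : Prop := ∀ (w : E 4) (i : Fin 48) (S : Set (Fin 48)),
  (∃ i' : Fin 48, Function.LeftInverse (mulF i') (mulF i) ∧ Function.RightInverse (mulF i') (mulF i))
  ∧ (S ∈ FaceSet (conf w) → (mulF i) '' S ∈ FaceSet (conf w))
  ∧ (IsFacet (conf w) S → IsFacet (conf w) ((mulF i) '' S))
  ∧ (∀ j : Fin 48, ∃ i : Fin 48, mulF i j = 0)

/-! ## Piece E: the facets at `w0` -/

/-- E1. The configuration at `w0` spans; its points are distinct and on a sphere. -/
def SpansStm : Prop := Spans (conf w0) ∧ Function.Injective (conf w0) ∧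
  (∀ w i, ‖conf w i‖ = ‖w‖)

/-- E2. Every facet at `w0` through the vertex `0` is in the list. -/
def FacetsStm : Prop := ∀ F, IsFacet (conf w0) F → (0 : Fin 48) ∈ F → ∃ l ∈ facetL, F = fset l

/-! ## Piece F: the listed facets near `w0` -/

/-- F1. the listed sets are faces at the points of `Z` near `w0`. -/
def NearZStm : Prop := ∀ l ∈ facetL, ∀ᶠ w in 𝓝[Z] w0, fset l ∈ FaceSet (conf w)

/-- F2. the listed sets of size 4 and 6 are faces at all points near `w0`. -/
def NearStm : Prop := ∀ l ∈ facetL, l.length ≠ 5 → ∀ᶠ w in 𝓝 w0, fset l ∈ FaceSet (conf w)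

/-- F3. the listed sets of size 5 are not faces at the points near `w0` outside `Z`. -/
def OffZStm : Prop := ∀ l ∈ facetL, l.length = 5 →
  ∀ᶠ w in 𝓝 w0, w ∉ Z → fset l ∉ FaceSet (conf w)

/-! ## Piece G: the invariant -/

/-- The property of a partially ordered set `α`: some coatom has exactly five atoms below it. -/
def HasFive (α : Type) [PartialOrder α] : Prop :=
  ∃ x : α, (∃ t : α, IsTop t ∧ x ⋖ t) ∧ Set.ncard {a : α | (∃ b : α, IsBot b ∧ b ⋖ a) ∧ a ≤ x} = 5

def HasFiveIsoStm : Prop := ∀ (α β : Type) [PartialOrder α] [PartialOrder β],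
  Nonempty (α ≃o β) → HasFive α → HasFive β

/-- For a configuration of distinct points on a sphere, the property says that some facet has
exactly five points. -/
def HasFiveFaceStm : Prop := ∀ (k : ℕ) (I : Type) [Finite I] (p : I → E k) (r : ℝ),
  Function.Injective p → (∀ i, ‖p i‖ = r) → 2 ≤ Nat.card I →
  (HasFive {S : Set I // S ∈ FaceSet p} ↔ ∃ F, IsFacet p F ∧ F.ncard = 5)

end Pool.Agent.R29.OP
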